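import Pool.Agent.Lib.MP_310563_al.Tree

set_option autoImplicit false

open Set Filter Topology unitInterval

namespace Pool.Agent.Lib.MP_310563_al

/-- the set of punctures -/
def XX : Set ℂ := {p | ∃ (k : ℕ) (m : ℤ), p = Phi ((U k).symm m, 1)}

lemma punct_mem_St (k : ℕ) (m : ℤ) : ((U k).symm m, (1 : ℝ)) ∈ St := by
  refine mem_St.2 ⟨zero_le_one, k, ?_⟩
  rw [F_eq_two]
  · norm_num
  · unfold hh; rw [OrderIso.apply_symm_apply, tent_int]; exact (ee_lt _).le

lemma U_symm_even (k : ℕ) (m : ℤ) : (U (k + 1)).symm ((2 * m : ℤ) : ℝ) = (U k).symm m := by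
  apply (U (k + 1)).injective
  rw [OrderIso.apply_symm_apply, U_succ, OrderIso.apply_symm_apply, pi1_int]; push_cast; ring

lemma U_symm_lift (k l : ℕ) (m : ℤ) : (U (k + l)).symm ((2 ^ l * m : ℤ) : ℝ) = (U k).symm m := by
  induction l with
  | zero => simp
  | succ l ih => rw [← ih, ← U_symm_even (k + l), ← add_assoc]; congr 2; ring

lemma range_pos : range data.pos = XX := by
  apply Subset.antisymm
  · rintro _ ⟨v, rfl⟩
    change chartOf v zeroDisc ∈ XX
    by_cases h : v = (0 : ℕ)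
    · subst h; rw [chartOf_zero_centre]; exact ⟨0, 0, by simp [U]⟩
    · rw [chartOf_centre h]; exact ⟨_, _, rfl⟩
  · rintro _ ⟨k, m, rfl⟩
    induction k generalizing m with
    | zero =>
      refine ⟨(0 : ℕ), ?_⟩
      change chartOf 0 zeroDisc = _
      rw [chartOf_zero_centre, ← Phi_add_int 0 1 m]; simp [U]
    | succ k ih =>
      rcases Int.even_or_odd' m with ⟨m', rfl | rfl⟩
      · rw [U_symm_even]; exact ih m'
      · obtain ⟨v, n, h1, h2, h3⟩ := exists_reduce k m'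
        have : 0 < 2 ^ k := by positivity
        refine ⟨v, ?_⟩
        change chartOf v zeroDisc = _
        rw [chartOf_centre (by omega), lev_eq h1 h2, ← h3,
          ← Phi_add_int ((U (k + 1)).symm ((2 * m' + 1 : ℤ) : ℝ)) 1 n, ← U_symm_add_int]
        congr 3; push_cast; ring

lemma mem_punctured {p : ℂ} : p ∈ data.surface.punctured ↔ p ∈ Phi '' St ∧ p ∉ XX := by
  rw [← range_pos, ← iUnion_poly]
  simp only [← range_chartOf]
  rfl

lemma mem_polygon {v : ℕ} {p : data.surface.punctured} :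
    p ∈ data.surface.polygon v ↔ (p : ℂ) ∈ Phi '' Pt v := by
  rw [← range_chartOf]; rfl

open Classical in
/-- the rotation-like maps of the surface -/
noncomputable def Rm (j : ℤ) (k : ℕ) (p : ℂ) : ℂ :=
  if h : ∃ x ∈ St, Phi x = p then Phi (T j k h.choose.1, h.choose.2) else p

lemma Rm_Phi (j : ℤ) (k : ℕ) {x : ℝ × ℝ} (hx : x ∈ St) : Rm j k (Phi x) = Phi (T j k x.1, x.2) := by
  have h : ∃ y ∈ St, Phi y = Phi x := ⟨x, hx, rfl⟩
  unfold Rm
  rw [dif_pos h]
  obtain ⟨h1, h2⟩ := h.choose_spec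
  obtain ⟨a, b | ⟨n, b⟩⟩ := (Phi_eq_iff h1 hx).1 h2
  · rw [← a, b, Phi_zero, Phi_zero]
  · rw [b, a, T_add_int, Phi_add_int]

lemma Rm_mem (j : ℤ) (k : ℕ) {p : ℂ} (hp : p ∈ Phi '' St) : Rm j k p ∈ Phi '' St := by
  obtain ⟨x, hx, rfl⟩ := hp
  rw [Rm_Phi j k hx]; exact ⟨_, T_mem_St j k hx, rfl⟩

lemma Rm_Rm (j j' : ℤ) (k : ℕ) {p : ℂ} (hp : p ∈ Phi '' St) :
    Rm j k (Rm j' k p) = Rm (j + j') k p := by
  obtain ⟨x, hx, rfl⟩ := hp
  rw [Rm_Phi j' k hx, Rm_Phi j k (T_mem_St j' k hx), Rm_Phi _ k hx, T_T]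

lemma Rm_pow (n : ℤ) (k : ℕ) {p : ℂ} (hp : p ∈ Phi '' St) : Rm (2 ^ k * n) k p = p := by
  obtain ⟨x, hx, rfl⟩ := hp
  rw [Rm_Phi _ k hx, T_pow, Phi_add_int]

lemma Rm_zero (k : ℕ) {p : ℂ} (hp : p ∈ Phi '' St) : Rm 0 k p = p := by
  simpa using Rm_pow 0 k hp

lemma Rm_lift (j : ℤ) (k m : ℕ) {p : ℂ} (hp : p ∈ Phi '' St) :
    Rm (2 ^ m * j) (k + m) p = Rm j k p := by
  obtain ⟨x, hx, rfl⟩ := hp
  rw [Rm_Phi _ _ hx, Rm_Phi _ _ hx, T_lift]

lemma Rm_injOn (j : ℤ) (k : ℕ) : InjOn (Rm j k) (Phi '' St) := by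
  intro p hp q hq h
  have := congrArg (Rm (-j) k) h
  rwa [Rm_Rm _ _ _ hp, Rm_Rm _ _ _ hq, neg_add_cancel, Rm_zero _ hp, Rm_zero _ hq] at this

lemma XX_subset : XX ⊆ Phi '' St := by
  rintro _ ⟨k, m, rfl⟩; exact ⟨_, punct_mem_St k m, rfl⟩

lemma Rm_XX (j : ℤ) (k : ℕ) {p : ℂ} (hp : p ∈ XX) : Rm j k p ∈ XX := by
  obtain ⟨l, m, rfl⟩ := hp
  rw [Rm_Phi _ _ (punct_mem_St l m)]
  refine ⟨k + l, 2 ^ k * m + 2 ^ l * j, ?_⟩
  congr 2
  simp only
  rw [← T_lift j k l, ← U_symm_lift l k m, add_comm l k]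
  unfold T
  rw [OrderIso.apply_symm_apply]; congr 1; push_cast; ring

lemma Rm_punctured (j : ℤ) (k : ℕ) {p : ℂ} (hp : p ∈ data.surface.punctured) :
    Rm j k p ∈ data.surface.punctured := by
  rw [mem_punctured] at hp ⊢
  refine ⟨Rm_mem j k hp.1, fun h => hp.2 ?_⟩
  have := Rm_XX (-j) k h
  rwa [Rm_Rm _ _ _ hp.1, neg_add_cancel, Rm_zero _ hp.1] at this

lemma image_Sig_eq (l : ℕ) : Phi '' Sig l = Phi '' (Sig l ∩ (Icc 0 1 ×ˢ Icc 0 2)) := by
  refine Subset.antisymm ?_ (image_mono inter_subset_left)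
  rintro _ ⟨⟨t, s⟩, hx, rfl⟩
  have e : F l (Int.fract t) = F l t := by rw [← F_add_int l _ ⌊t⌋, Int.fract_add_floor]
  refine ⟨(Int.fract t, s), ⟨⟨hx.1, by simp only; rw [e]; exact hx.2⟩,
    ⟨Int.fract_nonneg _, (Int.fract_lt_one _).le⟩, hx.1, hx.2.trans (F_le_two _ _)⟩, ?_⟩
  rw [← Phi_add_int _ _ ⌊t⌋, Int.fract_add_floor]

lemma isClosed_Sig (l : ℕ) : IsClosed (Sig l) :=
  (isClosed_le continuous_const continuous_snd).inter
    (isClosed_le continuous_snd ((continuous_F l).comp continuous_fst))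

lemma continuousOn_Rm_Sig (j : ℤ) (k l : ℕ) : ContinuousOn (Rm j k) (Phi '' Sig l) := by
  rw [image_Sig_eq]
  have hs : Sig l ∩ (Icc 0 1 ×ˢ Icc 0 2) ⊆ St := inter_subset_left.trans (Sig_subset l)
  refine continuousOn_of_compact ((isCompact_Icc.prod isCompact_Icc).inter_left (isClosed_Sig l))
    (continuousOn_Phi.mono hs) (g := fun x => Phi (T j k x.1, x.2)) ?_
    fun x hx => Rm_Phi j k (hs hx)
  exact continuousOn_Phi.comp (f := fun x : ℝ × ℝ => (T j k x.1, x.2))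
    (by have := continuous_T j k; fun_prop) fun x hx => T_mem_St j k (hs hx)

lemma continuousOn_Rm (j : ℤ) (k : ℕ) : ContinuousOn (Rm j k) (Phi '' St) := by
  rw [← iUnion_poly]
  refine locallyFinite_poly.continuousOn_iUnion (fun v => ?_) fun v => ?_
  · rw [← range_chartOf]; exact (isCompact_range (chartOf v).continuous).isClosed
  · refine (continuousOn_Rm_Sig j k v).mono ?_
    rw [image_Sig]
    exact subset_biUnion_of_mem (u := fun v => Phi '' Pt v)
      (Finset.mem_coe.2 (Finset.mem_range.2 Nat.lt_two_pow_self))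

lemma punctured_subset : data.surface.punctured ⊆ Phi '' St := fun _ hp => (mem_punctured.1 hp).1

/-- the homeomorphisms -/
noncomputable def homeo (j : ℤ) (k : ℕ) : data.surface.punctured ≃ₜ data.surface.punctured where
  toFun p := ⟨Rm j k p, Rm_punctured j k p.2⟩
  invFun p := ⟨Rm (-j) k p, Rm_punctured (-j) k p.2⟩
  left_inv p := Subtype.ext (by
    simp only; rw [Rm_Rm _ _ _ (punctured_subset p.2), neg_add_cancel,
      Rm_zero _ (punctured_subset p.2)])
  right_inv p := Subtype.ext (by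
    simp only; rw [Rm_Rm _ _ _ (punctured_subset p.2), add_neg_cancel,
      Rm_zero _ (punctured_subset p.2)])
  continuous_toFun := ((continuousOn_Rm j k).mono punctured_subset).domRestrict.subtype_mk _
  continuous_invFun := ((continuousOn_Rm (-j) k).mono punctured_subset).domRestrict.subtype_mk _

lemma homeo_val (j : ℤ) (k : ℕ) (p : data.surface.punctured) : (homeo j k p : ℂ) = Rm j k p := rfl

lemma homeo_mul (j j' : ℤ) (k : ℕ) : homeo j k * homeo j' k = homeo (j + j') k :=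
  Homeomorph.ext fun p => Subtype.ext (Rm_Rm j j' k (punctured_subset p.2))

lemma homeo_pow (n : ℤ) (k : ℕ) : homeo (2 ^ k * n) k = 1 :=
  Homeomorph.ext fun p => Subtype.ext (Rm_pow n k (punctured_subset p.2))

lemma homeo_zero (k : ℕ) : homeo 0 k = 1 := by simpa using homeo_pow 0 k

lemma homeo_lift (j : ℤ) (k m : ℕ) : homeo (2 ^ m * j) (k + m) = homeo j k :=
  Homeomorph.ext fun p => Subtype.ext (Rm_lift j k m (punctured_subset p.2))

lemma homeo_npow (j : ℤ) (k n : ℕ) : homeo j k ^ n = homeo (n * j) k := by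
  induction n with
  | zero => simp [homeo_zero]
  | succ n ih => rw [pow_succ, ih, homeo_mul]; congr 1; push_cast; ring

/-- the Pruefer group of homeomorphisms -/
def HH : Subgroup (data.surface.punctured ≃ₜ data.surface.punctured) where
  carrier := {φ | ∃ j k, φ = homeo j k}
  one_mem' := ⟨0, 0, (homeo_zero 0).symm⟩
  mul_mem' := by
    rintro _ _ ⟨j, k, rfl⟩ ⟨j', k', rfl⟩
    exact ⟨_, k + k', by rw [← homeo_lift j k k', ← homeo_lift j' k' k, add_comm k' k, homeo_mul]⟩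
  inv_mem' := by
    rintro _ ⟨j, k, rfl⟩
    refine ⟨-j, k, ?_⟩
    rw [inv_eq_iff_mul_eq_one, homeo_mul, add_neg_cancel, homeo_zero]

lemma homeo_finOrder (j : ℤ) (k : ℕ) : IsOfFinOrder (homeo j k) := by
  rw [isOfFinOrder_iff_pow_eq_one]
  exact ⟨2 ^ k, by positivity, by rw [homeo_npow]; push_cast; exact homeo_pow j k⟩

lemma Rm_root (j : ℤ) (k : ℕ) : Rm j k (data.pos (0 : ℕ)) = Phi ((U k).symm j, 1) := by
  change Rm j k (chartOf 0 zeroDisc) = _
  have := punct_mem_St 0 0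
  rw [chartOf_zero_centre, Rm_Phi _ _ (by simpa [U] using this)]
  simp [T, U_zero']

lemma homeo_eq_of_root {j j' : ℤ} {k : ℕ}
    (h : Rm j k (data.pos (0 : ℕ)) = Rm j' k (data.pos (0 : ℕ))) : homeo j k = homeo j' k := by
  rw [Rm_root, Rm_root] at h
  obtain ⟨-, h1 | ⟨n, h1⟩⟩ := (Phi_eq_iff (punct_mem_St k j) (punct_mem_St k j')).1 h
  · norm_num at h1
  · simp only at h1
    rw [← U_symm_add_int] at h1
    have h2 : j' = j + 2 ^ k * n := by exact_mod_cast (U k).symm.injective h1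
    rw [h2, ← homeo_mul, homeo_pow, mul_one]

lemma tendsto_homeo (j : ℤ) (k : ℕ) (v : ℕ) :
    Tendsto (fun p : data.surface.punctured => (homeo j k p : ℂ))
      (comap Subtype.val (𝓝 (data.pos v))) (𝓝 (Rm j k (data.pos v))) := by
  have h1 : data.pos v ∈ Phi '' St := XX_subset (range_pos ▸ mem_range_self v)
  have h2 := continuousOn_Rm j k _ h1
  refine Tendsto.comp (g := Rm j k) (f := Subtype.val) h2 ?_
  exact tendsto_nhdsWithin_iff.2 ⟨tendsto_comap, Eventually.of_forall fun p => punctured_subset p.2⟩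

lemma root_eq_of_homeo_eq {j j' : ℤ} {k k' : ℕ} (h : homeo j k = homeo j' k') :
    Rm j k (data.pos (0 : ℕ)) = Rm j' k' (data.pos (0 : ℕ)) := by
  have := data.neBot_puncture (0 : ℕ)
  exact tendsto_nhds_unique (tendsto_homeo j k 0) (h ▸ tendsto_homeo j' k' 0)

lemma eq_of_isotopic {φ ψ : data.surface.punctured ≃ₜ data.surface.punctured} (hφ : φ ∈ HH)
    (hψ : ψ ∈ HH) (h : data.surface.Isotopic φ ψ) : φ = ψ := by
  obtain ⟨j, k, rfl⟩ := hφ
  obtain ⟨j', k', rfl⟩ := hψ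
  rw [← homeo_lift j k k', ← homeo_lift j' k' k, add_comm k' k] at h ⊢
  apply homeo_eq_of_root
  obtain ⟨H, -, h0, h1, h2⟩ := h
  obtain ⟨w, hw⟩ := h2 (0 : ℕ)
  have := data.neBot_puncture (0 : ℕ)
  have a := hw 0
  have b := hw 1
  simp only [h0] at a
  simp only [h1] at b
  exact (tendsto_nhds_unique (tendsto_homeo _ _ 0) a).trans
    (tendsto_nhds_unique (tendsto_homeo _ _ 0) b).symm

lemma HH_infinite : (HH : Set (data.surface.punctured ≃ₜ data.surface.punctured)).Infinite := by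
  refine infinite_of_injective_forall_mem (f := fun k : ℕ => homeo 1 k) ?_ fun k => ⟨1, k, rfl⟩
  have key : ∀ k m : ℕ, homeo 1 k = homeo 1 (k + m) → m = 0 := by
    intro k m h
    have h1 : homeo 1 (k + m) ^ (2 ^ k) = 1 := by
      rw [← h, homeo_npow]; push_cast; exact homeo_pow 1 k
    rw [homeo_npow, ← homeo_zero (k + m)] at h1
    have h2 := root_eq_of_homeo_eq h1
    rw [Rm_root, Rm_root] at h2
    obtain ⟨-, h3 | ⟨n, h3⟩⟩ := (Phi_eq_iff (punct_mem_St _ _) (punct_mem_St _ _)).1 h2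
    · norm_num at h3
    · simp only at h3
      rw [← U_symm_add_int] at h3
      have h4 : (0 : ℤ) = ((2 ^ k : ℕ) : ℤ) * 1 + 2 ^ (k + m) * n := by
        exact_mod_cast (U (k + m)).symm.injective h3
      push_cast at h4
      have h5 : (2 : ℤ) ^ k * (1 + 2 ^ m * n) = 0 := by rw [pow_add] at h4; linear_combination -h4
      have h6 : 1 + 2 ^ m * n = 0 := (mul_eq_zero.1 h5).resolve_left (by positivity)
      cases m with
      | zero => rfl
      | succ m =>
        exfalso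
        rw [pow_succ', mul_assoc] at h6
        omega
  intro k l h
  rcases le_total k l with hkl | hkl
  · obtain ⟨m, rfl⟩ := Nat.exists_eq_add_of_le hkl
    rw [key k m h, add_zero]
  · obtain ⟨m, rfl⟩ := Nat.exists_eq_add_of_le hkl
    rw [key l m h.symm, add_zero]

def pre (A : Set (ℝ × ℝ)) : Set data.surface.punctured := {p | p.1 ∈ Phi '' A}

/-- images of sets under the homeomorphisms -/
lemma homeo_image (j : ℤ) (k : ℕ) {A B : Set (ℝ × ℝ)} (hA : A ⊆ St) (hB : B ⊆ St)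
    (h1 : ∀ x ∈ A, (T j k x.1, x.2) ∈ B) (h2 : ∀ x ∈ B, (T (-j) k x.1, x.2) ∈ A) :
    homeo j k '' pre A = pre B := by
  ext q
  constructor
  · rintro ⟨p, ⟨x, hx, e⟩, rfl⟩
    exact ⟨_, h1 x hx, by rw [homeo_val, ← e, Rm_Phi _ _ (hA hx)]⟩
  · rintro ⟨x, hx, e⟩
    refine ⟨homeo (-j) k q, ⟨_, h2 x hx, by rw [homeo_val, ← e, Rm_Phi _ _ (hB hx)]⟩, ?_⟩
    exact (homeo j k).apply_symm_apply q

lemma T_mem_Sig (j : ℤ) (k : ℕ) {x : ℝ × ℝ} (hx : x ∈ Sig k) : (T j k x.1, x.2) ∈ Sig k :=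
  ⟨hx.1, by simp only; rw [F_T j le_rfl]; exact hx.2⟩

lemma T_mem_Q (j : ℤ) {k l : ℕ} (h : k ≤ l) {m : ℤ} {x : ℝ × ℝ} (hx : x ∈ Q l m) :
    (T j k x.1, x.2) ∈ Q l (m + 2 ^ (l - k) * j) := by
  obtain ⟨a, b, c⟩ := hx
  refine ⟨?_, ?_, ?_⟩
  · simp only [U_T_of_le j h]
    push_cast
    exact ⟨by linarith [a.1], by linarith [a.2]⟩
  · simpa only [F_T j h] using b
  · simpa only [F_T j (h.trans (Nat.le_succ l))] using c

def poly (v : ℕ) : Set data.surface.punctured := data.surface.polygon v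

lemma poly_eq (v : ℕ) : poly v = pre (Pt v) := Set.ext fun _ => mem_polygon

def Ball (N : ℕ) : Set data.surface.punctured := ⋃ v ∈ Finset.range N, poly v

lemma Ball_eq (k : ℕ) : Ball (2 ^ k) = pre (Sig k) := by
  ext p
  simp only [Ball, mem_iUnion, poly_eq, pre, mem_ofPred_eq, image_Sig]

lemma isConnected_Ball (N : ℕ) : IsConnected (Ball (N + 1)) := by
  induction N with
  | zero =>
    have : Ball (0 + 1) = poly 0 := by simp [Ball]
    rw [this]; exact data.isConnected_polygon (0 : ℕ)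
  | succ N ih =>
    have e : Ball (N + 1 + 1) = poly (N + 1) ∪ Ball (N + 1) := by
      unfold Ball; rw [Finset.range_add_one (n := N + 1), Finset.set_biUnion_insert]
    rw [e]
    refine IsConnected.union ?_ (data.isConnected_polygon (N + 1 : ℕ)) ih
    obtain ⟨p, h1, h2⟩ := data.polygon_inter_nonempty (heap_adj_parent (Nat.succ_ne_zero N))
    exact ⟨p, h1, mem_biUnion (t := poly) (x := N.succ / 2)
      (Finset.mem_coe.2 (Finset.mem_range.2 (by omega))) h2⟩

lemma admissible_Ball (k : ℕ) : data.surface.Admissible (Ball (2 ^ k)) := by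
  have h0 : 0 < 2 ^ k := by positivity
  have h : 2 ^ k = 2 ^ k - 1 + 1 := by omega
  have := isConnected_Ball (2 ^ k - 1)
  rw [← h] at this
  exact ⟨this.1, this, Finset.range (2 ^ k), rfl⟩

lemma homeo_poly (j : ℤ) (k : ℕ) (v : ℕ) (hv : ¬ poly v ⊆ Ball (2 ^ k)) :
    ∃ w : ℕ, homeo j k '' poly v = poly w := by
  have h1 : 2 ^ k ≤ v := by
    by_contra h
    exact hv (subset_biUnion_of_mem (u := poly)
      (Finset.mem_coe.2 (Finset.mem_range.2 (not_le.1 h))))
  have hp : 0 < 2 ^ k := by positivity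
  have h0 : v ≠ 0 := by omega
  have h2 : k ≤ lev v := by
    have := lt_of_le_of_lt h1 (lt_lev v)
    exact Nat.lt_succ_iff.1 ((Nat.pow_lt_pow_iff_right (by norm_num)).1 this)
  obtain ⟨w, -, -, hw⟩ := exists_poly_eq (lev v) ((v : ℤ) + 2 ^ (lev v - k) * j)
  refine ⟨w, ?_⟩
  have b : poly w = pre (Q (lev v) ((v : ℤ) + 2 ^ (lev v - k) * j)) := by
    rw [poly_eq]; unfold pre; rw [hw]
  rw [poly_eq, Pt_pos h0, b]
  refine homeo_image j k (Q_subset _ _) (Q_subset _ _) (fun x hx => T_mem_Q j h2 hx)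
    fun x hx => ?_
  have := T_mem_Q (-j) h2 hx
  rwa [show (v : ℤ) + 2 ^ (lev v - k) * j + 2 ^ (lev v - k) * -j = v by ring] at this

lemma homeo_rigid (j : ℤ) (k : ℕ) : data.surface.AsymptoticallyRigid (homeo j k) := by
  have e : homeo j k '' Ball (2 ^ k) = Ball (2 ^ k) := by
    rw [Ball_eq]
    exact homeo_image j k (Sig_subset k) (Sig_subset k) (fun x hx => T_mem_Sig j k hx)
      fun x hx => T_mem_Sig (-j) k hx
  refine ⟨Ball (2 ^ k), admissible_Ball k, by rw [e]; exact admissible_Ball k,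
    (homeo j k).image_compl _, fun v hv => ?_⟩
  obtain ⟨w, e2⟩ := homeo_poly j k v hv
  refine ⟨w, fun h => hv ?_, e2⟩
  change poly w ⊆ _ at h
  rw [← e2] at h
  exact (image_subset_image_iff (homeo j k).injective).1 h

end Pool.Agent.Lib.MP_310563_al
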