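import Pool.Agent.Lib.MP_310563_al.Defs

set_option autoImplicit false

open Set Filter Topology unitInterval

namespace Pool.Agent.Lib.MP_310563_al

abbrev Disc := Metric.closedBall (0 : ℂ) 1

lemma continuousOn_of_compact {X : Type*} [TopologicalSpace X] {K : Set X} (hK : IsCompact K)
    {f g : X → ℂ} (hf : ContinuousOn f K) (hg : ContinuousOn g K) {c : ℂ → ℂ}
    (hc : ∀ x ∈ K, c (f x) = g x) : ContinuousOn c (f '' K) := by
  rw [continuousOn_iff_isClosed]
  intro t ht
  refine ⟨f '' (K ∩ g ⁻¹' t), ?_, ?_⟩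
  · obtain ⟨u, hu, hu'⟩ := (continuousOn_iff_isClosed.1 hg) t ht
    have h1 : IsCompact (K ∩ g ⁻¹' t) := by
      rw [inter_comm, hu', inter_comm]; exact hK.inter_right hu
    exact (h1.image_of_continuousOn (hf.mono inter_subset_left)).isClosed
  · ext z
    constructor
    · rintro ⟨hz, x, hx, rfl⟩
      exact ⟨⟨x, ⟨hx, by rw [mem_preimage, ← hc x hx]; exact hz⟩, rfl⟩, x, hx, rfl⟩
    · rintro ⟨⟨x, ⟨hx, hx'⟩, rfl⟩, -⟩
      exact ⟨by rw [mem_preimage, hc x hx]; exact hx', x, hx, rfl⟩

/-- a chart of a region from a common parametrisation with the disc -/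
lemma exists_chart {X : Type*} [TopologicalSpace X] {K : Set X} (hK : IsCompact K)
    {f g : X → ℂ} (hf : ContinuousOn f K) (hg : ContinuousOn g K)
    (hfK : f '' K = Metric.closedBall (0 : ℂ) 1)
    (h : ∀ x ∈ K, ∀ y ∈ K, f x = f y ↔ g x = g y) :
    ∃ c : C(Disc, ℂ), Function.Injective c ∧ range c = g '' K ∧
      ∀ x ∈ K, ∀ z : Disc, (z : ℂ) = f x → c z = g x := by
  classical
  let c : ℂ → ℂ := fun z => if hz : ∃ x ∈ K, f x = z then g hz.choose else 0
  have hc : ∀ x ∈ K, c (f x) = g x := by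
    intro x hx
    have hz : ∃ y ∈ K, f y = f x := ⟨x, hx, rfl⟩
    simp only [c, dif_pos hz]
    exact (h _ hz.choose_spec.1 x hx).1 hz.choose_spec.2
  have hcont := continuousOn_of_compact hK hf hg hc
  rw [hfK] at hcont
  have hs : ∀ z : Disc, ∃ x ∈ K, f x = z := fun z => by
    have : (z : ℂ) ∈ f '' K := hfK ▸ z.2
    exact this
  have hcont' : Continuous fun z : Disc => c z := hcont.domRestrict
  refine ⟨⟨fun z => c z, hcont'⟩, ?_, ?_, ?_⟩
  · intro z w hzw
    obtain ⟨x, hx, ex⟩ := hs z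
    obtain ⟨y, hy, ey⟩ := hs w
    simp only [ContinuousMap.coe_mk] at hzw
    rw [← ex, ← ey, hc x hx, hc y hy] at hzw
    apply Subtype.ext
    rw [← ex, ← ey]; exact (h x hx y hy).2 hzw
  · ext p
    constructor
    · rintro ⟨z, rfl⟩
      obtain ⟨x, hx, ex⟩ := hs z
      exact ⟨x, hx, by simp only [ContinuousMap.coe_mk]; rw [← ex, hc x hx]⟩
    · rintro ⟨x, hx, rfl⟩
      exact ⟨⟨f x, (hfK ▸ ⟨x, hx, rfl⟩ : f x ∈ Metric.closedBall (0 : ℂ) 1)⟩, hc x hx⟩
  · intro x hx z hz
    simp only [ContinuousMap.coe_mk]; rw [hz, hc x hx]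

def zeroDisc : Disc := ⟨0, by simp⟩

lemma norm_disc_le (z : Disc) : ‖(z : ℂ)‖ ≤ 1 := mem_closedBall_zero_iff.1 z.2

/-- The data from which a planar tree with a rigid surface is built. -/
structure Data where
  V : Type
  G : SimpleGraph V
  isTree : G.IsTree
  locallyFinite : ∀ v, (G.neighborSet v).Finite
  chart : V → C(Disc, ℂ)
  chart_injective : ∀ v, Function.Injective (chart v)
  polygons_locallyFinite : LocallyFinite fun v => range (chart v)
  arc : V → V → C(I, ℂ)
  arc_injective : ∀ v w, G.Adj v w → Function.Injective (arc v w)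
  arc_symm : ∀ v w, arc w v = arc v w
  arc_subset_boundary : ∀ v w, G.Adj v w → range (arc v w) ⊆ chart v '' {z | ‖(z : ℂ)‖ = 1}
  arc_ends : ∀ v w, G.Adj v w →
    arc v w 0 ∈ frontier (⋃ x, range (chart x)) ∧ arc v w 1 ∈ frontier (⋃ x, range (chart x))
  arc_disjoint : ∀ v w v' w', G.Adj v w → G.Adj v' w' → s(v, w) ≠ s(v', w') →
    Disjoint (range (arc v w)) (range (arc v' w'))
  inter_of_adj : ∀ v w, G.Adj v w → range (chart v) ∩ range (chart w) = range (arc v w)
  disjoint_of_not_adj : ∀ v w, v ≠ w → ¬ G.Adj v w →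
    Disjoint (range (chart v)) (range (chart w))

namespace Data

variable (D : Data)

lemma norm_eq_one {v w : D.V} (hvw : v ≠ w) {z : Disc} (hz : D.chart v z ∈ range (D.chart w)) :
    ‖(z : ℂ)‖ = 1 := by
  by_cases h : D.G.Adj v w
  · have : D.chart v z ∈ range (D.arc v w) := by
      rw [← D.inter_of_adj v w h]; exact ⟨mem_range_self _, hz⟩
    obtain ⟨y, hy, e⟩ := D.arc_subset_boundary v w h this
    rw [← D.chart_injective v e]; exact hy
  · exact absurd hz (disjoint_left.1 (D.disjoint_of_not_adj v w hvw h) (mem_range_self _))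

noncomputable def pos (v : D.V) : ℂ := D.chart v zeroDisc

lemma pos_mem {v w : D.V} (h : D.pos v ∈ range (D.chart w)) : v = w := by
  by_contra hvw
  have := D.norm_eq_one hvw h
  simp [zeroDisc] at this

lemma pos_injective : Function.Injective D.pos := fun v w h =>
  D.pos_mem (by rw [h]; exact mem_range_self _)

lemma exists_u {v w : D.V} (h : D.G.Adj v w) :
    ∃ u : Disc, ‖(u : ℂ)‖ = 1 ∧ D.chart v u = D.arc v w half :=
  D.arc_subset_boundary v w h (mem_range_self _)

open Classical in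
noncomputable def u (v w : D.V) : Disc := if h : D.G.Adj v w then (D.exists_u h).choose else zeroDisc

lemma u_spec {v w : D.V} (h : D.G.Adj v w) :
    ‖(D.u v w : ℂ)‖ = 1 ∧ D.chart v (D.u v w) = D.arc v w half := by
  unfold u; rw [dif_pos h]; exact (D.exists_u h).choose_spec

/-- point of the radius -/
noncomputable def radPt (z : Disc) (r : I) : Disc :=
  ⟨((r : ℝ) : ℂ) * z, by
    rw [mem_closedBall_zero_iff, norm_mul, Complex.norm_real, Real.norm_of_nonneg r.2.1]
    exact mul_le_one₀ r.2.2 (norm_nonneg _) (norm_disc_le z)⟩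

lemma continuous_radPt (z : Disc) : Continuous (radPt z) := by
  unfold radPt; fun_prop

noncomputable def ray (v w : D.V) (r : I) : ℂ := D.chart v (radPt (D.u v w) r)

lemma continuous_ray (v w : D.V) : Continuous (D.ray v w) :=
  (D.chart v).continuous.comp (continuous_radPt _)

lemma ray_zero (v w : D.V) : D.ray v w 0 = D.pos v := by
  unfold ray pos; congr 1; apply Subtype.ext; simp [radPt, zeroDisc]

lemma ray_one {v w : D.V} (h : D.G.Adj v w) : D.ray v w 1 = D.arc v w half := by
  unfold ray; rw [← (D.u_spec h).2]; congr 1; apply Subtype.ext; simp [radPt]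

lemma norm_radPt {v w : D.V} (h : D.G.Adj v w) (r : I) :
    ‖(radPt (D.u v w) r : ℂ)‖ = r := by
  simp only [radPt]
  rw [norm_mul, (D.u_spec h).1, Complex.norm_real, Real.norm_of_nonneg r.2.1, mul_one]

lemma ray_eq {v w v' w' : D.V} (h : D.G.Adj v w) (h' : D.G.Adj v' w') {r r' : I}
    (e : D.ray v w r = D.ray v' w' r') :
    (v = v' ∧ r = 0 ∧ r' = 0) ∨ (v = v' ∧ w = w' ∧ r = r') ∨
      (v = w' ∧ w = v' ∧ r = 1 ∧ r' = 1) := by
  have key : D.arc v w half = D.arc v' w' half → s(v, w) = s(v', w') := by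
    intro e'
    by_contra hne
    exact disjoint_left.1 (D.arc_disjoint v w v' w' h h' hne) (mem_range_self half)
      (by rw [e']; exact mem_range_self half)
  by_cases hv : v = v'
  · subst hv
    have e1 := D.chart_injective v e
    have e2 : r = r' := by
      apply Subtype.ext
      rw [← D.norm_radPt h r, ← D.norm_radPt h' r', e1]
    subst e2
    by_cases hr : r = 0
    · exact Or.inl ⟨rfl, hr, hr⟩
    · have e3 : D.u v w = D.u v w' := by
        apply Subtype.ext
        have := congrArg Subtype.val e1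
        simp only [radPt] at this
        refine mul_left_cancel₀ ?_ this
        intro h0
        apply hr; apply Subtype.ext
        exact_mod_cast h0
      have := key (by rw [← (D.u_spec h).2, ← (D.u_spec h').2, e3])
      rcases Sym2.eq_iff.1 this with ⟨-, h2⟩ | ⟨h1, h2⟩
      · exact Or.inr (Or.inl ⟨rfl, h2, rfl⟩)
      · exact absurd h2.symm h.ne
  · have e1 : r = 1 := by
      apply Subtype.ext
      rw [← D.norm_radPt h r]
      exact D.norm_eq_one hv ⟨_, e.symm⟩
    have e2 : r' = 1 := by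
      apply Subtype.ext
      rw [← D.norm_radPt h' r']
      exact D.norm_eq_one (Ne.symm hv) ⟨_, e⟩
    subst e1; subst e2
    rw [D.ray_one h, D.ray_one h'] at e
    rcases Sym2.eq_iff.1 (key e) with ⟨h1, -⟩ | ⟨h1, h2⟩
    · exact absurd h1 hv
    · exact Or.inr (Or.inr ⟨h1, h2, rfl, rfl⟩)

noncomputable def edgeFun (v w : D.V) (t : I) : ℂ :=
  if (t : ℝ) ≤ 1 / 2 then D.ray v w (projIcc 0 1 zero_le_one (2 * t))
  else D.ray w v (projIcc 0 1 zero_le_one (2 - 2 * t))

lemma continuous_edgeFun {v w : D.V} (h : D.G.Adj v w) : Continuous (D.edgeFun v w) := by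
  unfold edgeFun
  refine Continuous.if_le ?_ ?_ continuous_subtype_val continuous_const ?_
  · exact (D.continuous_ray v w).comp (continuous_projIcc.comp (by fun_prop))
  · exact (D.continuous_ray w v).comp (continuous_projIcc.comp (by fun_prop))
  · intro t ht
    rw [ht]
    have e1 : projIcc (0 : ℝ) 1 zero_le_one (2 * (1 / 2)) = (1 : I) := by
      apply projIcc_of_right_le; norm_num
    have e2 : projIcc (0 : ℝ) 1 zero_le_one (2 - 2 * (1 / 2)) = (1 : I) := by
      apply projIcc_of_right_le; norm_num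
    rw [e1, e2, D.ray_one h, D.ray_one h.symm, D.arc_symm]

open Classical in
noncomputable def edge (v w : D.V) : C(I, ℂ) :=
  if h : D.G.Adj v w then ⟨D.edgeFun v w, D.continuous_edgeFun h⟩ else ContinuousMap.const _ 0

lemma edge_left {v w : D.V} (h : D.G.Adj v w) {t r : I} (e : (r : ℝ) = 2 * t) :
    D.edge v w t = D.ray v w r := by
  unfold edge; rw [dif_pos h]
  simp only [ContinuousMap.coe_mk, edgeFun]
  rw [if_pos (by linarith [r.2.2]), ← e, projIcc_val]

lemma edge_right {v w : D.V} (h : D.G.Adj v w) {t r : I} (e : (r : ℝ) = 2 - 2 * t) :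
    D.edge v w t = D.ray w v r := by
  by_cases ht : (t : ℝ) ≤ 1 / 2
  · have h1 : r = 1 := Subtype.ext (by
      have := r.2.2; simp only [Set.Icc.coe_one]; linarith)
    subst h1
    rw [D.edge_left h (r := 1) (by simp only [Set.Icc.coe_one] at e ⊢; linarith),
      D.ray_one h, D.ray_one h.symm, D.arc_symm]
  · unfold edge; rw [dif_pos h]
    simp only [ContinuousMap.coe_mk, edgeFun]
    rw [if_neg ht, ← e, projIcc_val]

lemma edge_cases {v w : D.V} (h : D.G.Adj v w) (t : I) :
    (∃ r : I, (r : ℝ) = 2 * t ∧ D.edge v w t = D.ray v w r) ∨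
      (∃ r : I, (r : ℝ) = 2 - 2 * t ∧ D.edge v w t = D.ray w v r) := by
  rcases le_total (t : ℝ) (1 / 2) with ht | ht
  · exact Or.inl ⟨⟨2 * t, by linarith [t.2.1], by linarith⟩, rfl, D.edge_left h rfl⟩
  · exact Or.inr ⟨⟨2 - 2 * t, by linarith [t.2.2], by linarith⟩, rfl, D.edge_right h rfl⟩

lemma I_eq_zero {t : I} (h : (t : ℝ) = 0) : t = 0 := Subtype.ext h
lemma I_eq_one {t : I} (h : (t : ℝ) = 1) : t = 1 := Subtype.ext h

lemma ray_eq_pos {v w x : D.V} {r : I} (h : D.G.Adj v w) (e : D.ray v w r = D.pos x) : r = 0 := by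
  have hx : x = v := D.pos_mem ⟨_, e⟩
  subst hx
  have := D.chart_injective x e
  apply Subtype.ext
  rw [← D.norm_radPt h r, this]; simp [zeroDisc]

noncomputable def tree : PlanarTree where
  V := D.V
  G := D.G
  isTree := D.isTree
  locallyFinite := D.locallyFinite
  pos := D.pos
  pos_injective := D.pos_injective
  isClosed_vertices := by
    have h : LocallyFinite fun v => ({D.pos v} : Set ℂ) :=
      D.polygons_locallyFinite.subset fun v => singleton_subset_iff.2 (mem_range_self _)
    have := h.isClosed_iUnion fun v => isClosed_singleton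
    rwa [iUnion_singleton_eq_range] at this
  isDiscrete_vertices := by
    have h : LocallyFinite fun v => ({D.pos v} : Set ℂ) :=
      D.polygons_locallyFinite.subset fun v => singleton_subset_iff.2 (mem_range_self _)
    rw [isDiscrete_iff_forall_mem_exists_isOpen]
    rintro _ ⟨v, rfl⟩
    have h2 : IsClosed (⋃ w : {w // w ≠ v}, ({D.pos w} : Set ℂ)) :=
      (h.comp_injective Subtype.val_injective).isClosed_iUnion fun w => isClosed_singleton
    refine ⟨_, h2.isOpen_compl, ?_⟩
    ext p
    simp only [mem_inter_iff, mem_compl_iff, mem_iUnion, mem_singleton_iff, not_exists, mem_range]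
    constructor
    · rintro ⟨h1, w, rfl⟩
      by_contra hne
      exact h1 ⟨w, fun e => hne (by rw [e])⟩ rfl
    · rintro rfl
      exact ⟨fun w e => w.2 (D.pos_injective e).symm, v, rfl⟩
  edge := D.edge
  edge_zero v w h := by rw [D.edge_left h (r := 0) (by simp), D.ray_zero]
  edge_symm v w h t := by
    rcases D.edge_cases h.symm t with ⟨r, hr, e⟩ | ⟨r, hr, e⟩
    · rw [e, D.edge_right h (r := r) (by rw [coe_symm_eq]; linarith)]
    · rw [e, D.edge_left h (r := r) (by rw [coe_symm_eq]; linarith)]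
  edge_injective v w h t t' e := by
    apply Subtype.ext
    rcases D.edge_cases h t with ⟨r, hr, e1⟩ | ⟨r, hr, e1⟩ <;>
      rcases D.edge_cases h t' with ⟨r', hr', e2⟩ | ⟨r', hr', e2⟩ <;> rw [e1, e2] at e
    · rcases D.ray_eq h h e with ⟨-, h1, h2⟩ | ⟨-, -, h1⟩ | ⟨h1, -⟩
      · subst h1; subst h2; linarith
      · subst h1; linarith
      · exact absurd h1 h.ne
    · rcases D.ray_eq h h.symm e with ⟨h1, -⟩ | ⟨h1, -⟩ | ⟨-, -, h1, h2⟩
      · exact absurd h1 h.ne
      · exact absurd h1 h.ne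
      · subst h1; subst h2; simp only [Set.Icc.coe_one] at hr hr'; linarith
    · rcases D.ray_eq h.symm h e with ⟨h1, -⟩ | ⟨h1, -⟩ | ⟨-, -, h1, h2⟩
      · exact absurd h1.symm h.ne
      · exact absurd h1.symm h.ne
      · subst h1; subst h2; simp only [Set.Icc.coe_one] at hr hr'; linarith
    · rcases D.ray_eq h.symm h.symm e with ⟨-, h1, h2⟩ | ⟨-, -, h1⟩ | ⟨h1, -⟩
      · subst h1; subst h2; linarith
      · subst h1; linarith
      · exact absurd h1.symm h.ne
  edge_avoids v w h t x e := by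
    rcases D.edge_cases h t with ⟨r, hr, e1⟩ | ⟨r, hr, e1⟩ <;> rw [e1] at e
    · have := D.ray_eq_pos h e
      subst this
      exact Or.inl (I_eq_zero (by simp only [Set.Icc.coe_zero] at hr; linarith))
    · have := D.ray_eq_pos h.symm e
      subst this
      exact Or.inr (I_eq_one (by simp only [Set.Icc.coe_zero] at hr; linarith))
  edge_inter v w v' w' h h' hne t t' e := by
    have key : ∀ {a b a' b' : D.V} (_ : D.G.Adj a b) (_ : D.G.Adj a' b') {r r' : I},
        s(a, b) ≠ s(a', b') → D.ray a b r = D.ray a' b' r' → (r : ℝ) = 0 ∧ (r' : ℝ) = 0 := by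
      intro a b a' b' g g' r r' hn e
      rcases D.ray_eq g g' e with ⟨-, h1, h2⟩ | ⟨h1, h2, -⟩ | ⟨h1, h2, -⟩
      · subst h1; subst h2; simp
      · subst h1; subst h2; exact absurd rfl hn
      · subst h1; subst h2; exact absurd Sym2.eq_swap hn
    rcases D.edge_cases h t with ⟨r, hr, e1⟩ | ⟨r, hr, e1⟩ <;>
      rcases D.edge_cases h' t' with ⟨r', hr', e2⟩ | ⟨r', hr', e2⟩ <;> rw [e1, e2] at e
    · obtain ⟨h1, h2⟩ := key h h' hne e
      exact ⟨Or.inl (I_eq_zero (by linarith)), Or.inl (I_eq_zero (by linarith))⟩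
    · obtain ⟨h1, h2⟩ := key h h'.symm (by rwa [Sym2.eq_swap (a := w')]) e
      exact ⟨Or.inl (I_eq_zero (by linarith)), Or.inr (I_eq_one (by linarith))⟩
    · obtain ⟨h1, h2⟩ := key h.symm h' (by rwa [Sym2.eq_swap (a := w)]) e
      exact ⟨Or.inr (I_eq_one (by linarith)), Or.inl (I_eq_zero (by linarith))⟩
    · obtain ⟨h1, h2⟩ := key h.symm h'.symm
        (by rwa [Sym2.eq_swap (a := w), Sym2.eq_swap (a := w')]) e
      exact ⟨Or.inr (I_eq_one (by linarith)), Or.inr (I_eq_one (by linarith))⟩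

noncomputable def surface : RigidSurface D.tree where
  chart := D.chart
  chart_injective := D.chart_injective
  chart_centre v z hz := by
    have : z = zeroDisc := Subtype.ext hz
    rw [this]; rfl
  polygons_locallyFinite := D.polygons_locallyFinite
  arc := D.arc
  arc_injective := D.arc_injective
  arc_symm v w _ := congrArg (fun f : C(I, ℂ) => range f) (D.arc_symm v w)
  arc_subset_boundary := D.arc_subset_boundary
  arc_ends := D.arc_ends
  arc_disjoint := D.arc_disjoint
  inter_of_adj := D.inter_of_adj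
  disjoint_of_not_adj := D.disjoint_of_not_adj
  edge_radius v w h := by
    refine ⟨D.u v w, (D.u_spec h).1, fun t z ht hz => ?_⟩
    have ht' : (t : ℝ) ≤ 1 / 2 := ht
    have := D.edge_left h (t := t) (r := ⟨2 * t, by linarith [t.2.1], by linarith⟩) rfl
    refine this.trans ?_
    unfold ray; congr 1; apply Subtype.ext
    simp only [radPt]; rw [hz]; push_cast; ring
  edge_crosses v w h := by
    have := D.edge_left h (t := half) (r := 1) (by simp [half])
    exact this.trans (D.ray_one h)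

noncomputable def polar (x : I × Metric.sphere (0 : ℂ) 1) : Disc :=
  radPt ⟨x.2, Metric.sphere_subset_closedBall x.2.2⟩ x.1

lemma continuous_polar : Continuous polar := by
  unfold polar radPt; fun_prop

lemma norm_polar (x : I × Metric.sphere (0 : ℂ) 1) : ‖(polar x : ℂ)‖ = x.1 := by
  have hz' : ‖(x.2 : ℂ)‖ = 1 := mem_sphere_zero_iff_norm.1 x.2.2
  simp only [polar, radPt]
  rw [norm_mul, hz', Complex.norm_real, Real.norm_of_nonneg x.1.2.1, mul_one]

lemma val_image_polygon (v : D.V) :
    Subtype.val '' D.surface.polygon v =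
      (fun x => D.chart v (polar x)) '' (Ioc 0 1 ×ˢ univ) := by
  ext p
  constructor
  · rintro ⟨⟨q, hq⟩, ⟨z, hz⟩, rfl⟩
    have hz0 : (z : ℂ) ≠ 0 := by
      intro h0
      apply hq.2
      refine ⟨v, ?_⟩
      have : z = zeroDisc := Subtype.ext h0
      rw [this] at hz; exact hz
    have hn : 0 < ‖(z : ℂ)‖ := norm_pos_iff.2 hz0
    have hn' : ((‖(z : ℂ)‖ : ℝ) : ℂ) ≠ 0 := by exact_mod_cast hn.ne'
    have e : ((‖(z : ℂ)‖ : ℝ) : ℂ) * (z / ((‖(z : ℂ)‖ : ℝ) : ℂ)) = z := by field_simp
    refine ⟨(⟨‖(z : ℂ)‖, hn.le, norm_disc_le z⟩, ⟨z / ((‖(z : ℂ)‖ : ℝ) : ℂ), by simp [hz0]⟩),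
      ⟨⟨hn, norm_disc_le z⟩, mem_univ _⟩, ?_⟩
    refine Eq.trans ?_ hz
    exact congrArg (D.chart v) (Subtype.ext e)
  · rintro ⟨x, ⟨hr, -⟩, rfl⟩
    refine ⟨⟨D.chart v (polar x), mem_iUnion.2 ⟨v, mem_range_self _⟩, ?_⟩, mem_range_self _, rfl⟩
    rintro ⟨y, hy⟩
    have hxv : y = v := D.pos_mem ⟨_, hy.symm⟩
    subst hxv
    have := congrArg (fun z : Disc => ‖(z : ℂ)‖) (D.chart_injective y hy)
    simp only [zeroDisc, norm_zero] at this
    rw [norm_polar] at this
    exact (show (0 : ℝ) < x.1 from hr.1).ne this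

lemma isConnected_polygon (v : D.V) : IsConnected (D.surface.polygon v) := by
  have : ConnectedSpace (Metric.sphere (0 : ℂ) 1) := isConnected_iff_connectedSpace.1
    (isConnected_sphere (by rw [Complex.rank_real_complex]; norm_num) 0 zero_le_one)
  have h1 : IsConnected (Ioc (0 : I) 1 ×ˢ (univ : Set (Metric.sphere (0 : ℂ) 1))) :=
    (isConnected_Ioc zero_lt_one).prod isConnected_univ
  have h2 : IsConnected (Subtype.val '' D.surface.polygon v) := by
    rw [val_image_polygon]
    exact h1.image _ ((D.chart v).continuous.comp continuous_polar).continuousOn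
  exact ⟨h2.1.of_image, IsInducing.subtypeVal.isPreconnected_image.1 h2.2⟩

lemma polygon_inter_nonempty {v w : D.V} (h : D.G.Adj v w) :
    (D.surface.polygon v ∩ D.surface.polygon w).Nonempty := by
  have h1 : D.arc v w half ∈ range (D.chart v) ∩ range (D.chart w) := by
    rw [D.inter_of_adj v w h]; exact mem_range_self _
  refine ⟨⟨D.arc v w half, mem_iUnion.2 ⟨v, h1.1⟩, ?_⟩, h1.1, h1.2⟩
  rintro ⟨x, hx⟩
  have e1 : x = v := D.pos_mem (by change D.pos x = _ at hx; rw [hx]; exact h1.1)
  have e2 : x = w := D.pos_mem (by change D.pos x = _ at hx; rw [hx]; exact h1.2)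
  exact h.ne (e1.symm.trans e2)

lemma neBot_puncture (v : D.V) :
    (comap (Subtype.val : D.surface.punctured → ℂ) (𝓝 (D.pos v))).NeBot := by
  rw [← mem_closure_iff_comap_neBot]
  have h1 : D.pos v ∈ closure (Subtype.val '' D.surface.polygon v) := by
    let z1 : Disc := ⟨1, by simp⟩
    have hc : Continuous fun r : I => D.chart v (radPt z1 r) :=
      (D.chart v).continuous.comp (continuous_radPt _)
    have h0 : D.pos v = (fun r : I => D.chart v (radPt z1 r)) 0 := by
      simp only [pos]; congr 1; apply Subtype.ext; simp [radPt, zeroDisc]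
    have hcl : (0 : I) ∈ closure (Ioi (0 : I)) := by
      rw [closure_Ioi' (⟨1, by simp⟩ : (Ioi (0 : I)).Nonempty)]; simp
    rw [h0]
    refine map_mem_closure (f := fun r : I => D.chart v (radPt z1 r)) hc hcl fun r hr => ?_
    rw [val_image_polygon]
    exact ⟨(r, ⟨1, by simp⟩), ⟨⟨hr, r.2.2⟩, mem_univ _⟩, rfl⟩
  refine closure_mono ?_ h1
  rintro _ ⟨p, -, rfl⟩
  exact p.2

end Data

end Pool.Agent.Lib.MP_310563_al
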