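import Mathlib

set_option autoImplicit false

open Set Filter Topology

namespace Pool.Agent.Lib.MP_310563_al

/-- distance to the nearest integer -/
noncomputable def nz (x : ℝ) : ℝ := ‖(x : UnitAddCircle)‖

lemma nz_nonneg (x : ℝ) : 0 ≤ nz x := norm_nonneg _

lemma nz_add_int (x : ℝ) (n : ℤ) : nz (x + n) = nz x := by
  unfold nz
  have : ((n : ℝ) : UnitAddCircle) = 0 := by
    rw [AddCircle.coe_eq_zero_iff]; exact ⟨n, by simp⟩
  rw [AddCircle.coe_add, this, add_zero]

lemma nz_eq_abs {x : ℝ} (h : |x| ≤ 1 / 2) : nz x = |x| := by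
  unfold nz
  rw [AddCircle.norm_coe_eq_abs_iff (1 : ℝ) one_ne_zero]
  simpa using h

lemma nz_eq_round (x : ℝ) : nz x = |x - round x| := UnitAddCircle.norm_eq

lemma nz_le_half (x : ℝ) : nz x ≤ 1 / 2 := by
  rw [nz_eq_round]; exact abs_sub_round x

lemma nz_le_abs (x : ℝ) : nz x ≤ |x| := by
  rcases le_total |x| (1 / 2) with h | h
  · rw [nz_eq_abs h]
  · exact (nz_le_half x).trans h

lemma nz_sub_le (x y : ℝ) : nz x - nz y ≤ |x - y| := by
  have h1 : nz x - nz y ≤ nz (x - y) := by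
    unfold nz
    rw [AddCircle.coe_sub]
    exact norm_sub_norm_le _ _
  exact h1.trans (nz_le_abs _)

lemma continuous_nz : Continuous nz := by
  unfold nz
  exact continuous_norm.comp (AddCircle.continuous_mk' 1)

/-- lift of a degree two circle map which is the identity on `[-1/4, 1/4]` -/
noncomputable def pi1 (t : ℝ) : ℝ := 2 * t + 1 / 4 - nz (t + 1 / 4)

lemma pi1_strictMono : StrictMono pi1 := by
  intro a b hab
  have h := nz_sub_le (b + 1 / 4) (a + 1 / 4)
  have h2 : |b + 1 / 4 - (a + 1 / 4)| = b - a := by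
    rw [show b + 1 / 4 - (a + 1 / 4) = b - a by ring, abs_of_pos (by linarith)]
  unfold pi1
  linarith

lemma continuous_pi1 : Continuous pi1 := by
  unfold pi1
  have := continuous_nz
  fun_prop

lemma pi1_add_int (t : ℝ) (n : ℤ) : pi1 (t + n) = pi1 t + 2 * n := by
  unfold pi1
  rw [show t + n + 1 / 4 = t + 1 / 4 + n by ring, nz_add_int]; ring

lemma pi1_of_abs_le {t : ℝ} (h : |t| ≤ 1 / 4) : pi1 t = t := by
  unfold pi1
  have h1 := abs_le.1 h
  have h2 : |t + 1 / 4| = t + 1 / 4 := abs_of_nonneg (by linarith)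
  rw [nz_eq_abs (by rw [h2]; linarith), h2]; ring

lemma pi1_half : pi1 (1 / 2) = 1 := by
  unfold pi1
  have : nz (1 / 2 + 1 / 4) = 1 / 4 := by
    rw [show (1 / 2 + 1 / 4 : ℝ) = -1 / 4 + ((1 : ℤ) : ℝ) by norm_num, nz_add_int,
      nz_eq_abs (by rw [abs_le]; constructor <;> norm_num)]
    rw [abs_of_neg (by norm_num)]; norm_num
  rw [this]; norm_num

lemma pi1_surjective : Function.Surjective pi1 := by
  apply continuous_pi1.surjective
  · apply tendsto_atTop_mono (f := fun t : ℝ => 2 * t + (-1 / 4))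
    · intro t; unfold pi1; have := nz_le_half (t + 1 / 4); linarith
    · exact tendsto_atTop_add_const_right _ _ (tendsto_id.const_mul_atTop (by norm_num))
  · apply tendsto_atBot_mono (f := fun t : ℝ => 2 * t + (1 / 4))
    · intro t; unfold pi1; have := nz_nonneg (t + 1 / 4); linarith
    · exact tendsto_atBot_add_const_right _ _ (tendsto_id.const_mul_atBot (by norm_num))

noncomputable def P : ℝ ≃o ℝ := pi1_strictMono.orderIsoOfSurjective pi1 pi1_surjective

lemma P_apply (t : ℝ) : P t = pi1 t := rfl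

/-- the `k`-th iterate -/
noncomputable def U : ℕ → ℝ ≃o ℝ
  | 0 => OrderIso.refl ℝ
  | k + 1 => (U k).trans P

@[simp] lemma U_zero (t : ℝ) : U 0 t = t := rfl
lemma U_succ (k : ℕ) (t : ℝ) : U (k + 1) t = pi1 (U k t) := rfl

lemma U_add_int (k : ℕ) (t : ℝ) (n : ℤ) : U k (t + n) = U k t + ((2 ^ k * n : ℤ) : ℝ) := by
  induction k with
  | zero => simp
  | succ k ih => rw [U_succ, U_succ, ih, pi1_add_int]; push_cast; ring

lemma U_symm_add_int (k : ℕ) (x : ℝ) (n : ℤ) :
    (U k).symm (x + ((2 ^ k * n : ℤ) : ℝ)) = (U k).symm x + n := by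
  apply (U k).injective
  rw [U_add_int]; simp

lemma U_zero' (k : ℕ) : U k 0 = 0 := by
  induction k with
  | zero => simp
  | succ k ih => rw [U_succ, ih, pi1_of_abs_le (by simp)]

lemma continuous_U (k : ℕ) : Continuous (U k) := (U k).continuous
lemma continuous_U_symm (k : ℕ) : Continuous (U k).symm := (U k).symm.continuous

/-- tent function -/
noncomputable def tent (x : ℝ) : ℝ := max 0 (1 / 4 - nz x)

lemma tent_nonneg (x : ℝ) : 0 ≤ tent x := le_max_left _ _
lemma tent_le (x : ℝ) : tent x ≤ 1 / 4 := by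
  unfold tent; have := nz_nonneg x; exact max_le (by norm_num) (by linarith)
lemma tent_add_int (x : ℝ) (n : ℤ) : tent (x + n) = tent x := by unfold tent; rw [nz_add_int]
lemma continuous_tent : Continuous tent := by
  unfold tent; have := continuous_nz; fun_prop
lemma tent_int (n : ℤ) : tent n = 1 / 4 := by
  have := tent_add_int 0 n
  rw [zero_add] at this
  rw [this]; unfold tent; rw [nz_eq_abs (by simp)]; simp
lemma tent_half (n : ℤ) : tent (n + 1 / 2) = 0 := by
  rw [add_comm, tent_add_int]; unfold tent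
  rw [nz_eq_abs (by rw [abs_of_pos (by norm_num)]), abs_of_pos (by norm_num)]; norm_num

lemma tent_le_tent_pi1 (x : ℝ) : tent x ≤ tent (pi1 x) := by
  rcases le_or_gt (1 / 4) (nz x) with h | h
  · have : tent x = 0 := by unfold tent; exact max_eq_left (by linarith)
    rw [this]; exact tent_nonneg _
  · have h1 : |x - round x| ≤ 1 / 4 := by rw [← nz_eq_round]; exact h.le
    have h2 : pi1 x = x + ((round x : ℤ) : ℝ) := by
      have := pi1_add_int (x - round x) (round x)
      rw [sub_add_cancel, pi1_of_abs_le h1] at this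
      rw [this]; ring
    rw [h2, tent_add_int]

/-- window lemma -/
lemma tent_le_iff {x e : ℝ} (m : ℤ) (he : 0 < e) (he' : e < 1 / 4) :
    x ∈ Icc ((m : ℝ) + (1 / 4 - e)) (m + 1 - (1 / 4 - e)) ↔ x ∈ Icc (m : ℝ) (m + 1) ∧ tent x ≤ e := by
  have key : x ∈ Icc (m : ℝ) (m + 1) → nz x = min (x - m) (m + 1 - x) := by
    intro hx
    rcases le_total (x - m) (1 / 2) with h | h
    · have : nz x = nz (x - m) := by rw [← nz_add_int (x - m) m, sub_add_cancel]
      rw [this, nz_eq_abs (by rw [abs_of_nonneg] <;> linarith [hx.1]),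
        abs_of_nonneg (by linarith [hx.1]), min_eq_left (by linarith)]
    · have : nz x = nz (x - ((m + 1 : ℤ) : ℝ)) := by
        rw [← nz_add_int (x - ((m + 1 : ℤ) : ℝ)) (m + 1), sub_add_cancel]
      rw [this]; push_cast
      rw [nz_eq_abs (by rw [abs_of_nonpos] <;> linarith [hx.2]),
        abs_of_nonpos (by linarith [hx.2]), min_eq_right (by linarith)]; ring
  constructor
  · intro hx
    have hx' : x ∈ Icc (m : ℝ) (m + 1) := ⟨by linarith [hx.1], by linarith [hx.2]⟩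
    refine ⟨hx', ?_⟩
    unfold tent
    rw [key hx']
    refine max_le he.le ?_
    have : 1 / 4 - e ≤ min (x - m) (m + 1 - x) := le_min (by linarith [hx.1]) (by linarith [hx.2])
    linarith
  · rintro ⟨hx, ht⟩
    unfold tent at ht
    rw [key hx] at ht
    have h1 : 1 / 4 - min (x - m) (m + 1 - x) ≤ e := (le_max_right _ _).trans ht
    have h2 := min_le_left (x - m) (m + 1 - x)
    have h3 := min_le_right (x - m) (m + 1 - x)
    exact ⟨by linarith, by linarith⟩

noncomputable def hh (k : ℕ) (t : ℝ) : ℝ := tent (U k t)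

lemma hh_nonneg (k : ℕ) (t : ℝ) : 0 ≤ hh k t := tent_nonneg _
lemma hh_le (k : ℕ) (t : ℝ) : hh k t ≤ 1 / 4 := tent_le _
lemma hh_mono (t : ℝ) : Monotone fun k => hh k t :=
  monotone_nat_of_le_succ fun k => by
    unfold hh; rw [U_succ]; exact tent_le_tent_pi1 _
lemma hh_add_int (k : ℕ) (t : ℝ) (n : ℤ) : hh k (t + n) = hh k t := by
  unfold hh; rw [U_add_int, tent_add_int]
lemma continuous_hh (k : ℕ) : Continuous (hh k) := continuous_tent.comp (continuous_U k)

noncomputable def ee (k : ℕ) : ℝ := 1 / (8 * 2 ^ k)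

lemma ee_pos (k : ℕ) : 0 < ee k := by unfold ee; positivity
lemma ee_succ (k : ℕ) : ee (k + 1) = ee k / 2 := by unfold ee; rw [pow_succ]; field_simp
lemma ee_strictAnti : StrictAnti ee :=
  strictAnti_nat_of_succ_lt fun k => by rw [ee_succ]; linarith [ee_pos k]
lemma ee_le (k : ℕ) : ee k ≤ 1 / 8 := by
  have := ee_strictAnti.antitone (Nat.zero_le k)
  simpa [ee] using this
lemma ee_lt (k : ℕ) : ee k < 1 / 4 := by linarith [ee_le k]

/-- height of the level `k` arcs -/
noncomputable def F (k : ℕ) (t : ℝ) : ℝ := 2 - (1 + ee k) * max 0 (1 - hh k t / ee k)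

lemma F_le_two (k : ℕ) (t : ℝ) : F k t ≤ 2 := by
  unfold F
  have := ee_pos k
  have : 0 ≤ (1 + ee k) * max 0 (1 - hh k t / ee k) := by positivity
  linarith

lemma F_ge (k : ℕ) (t : ℝ) : 1 - ee k ≤ F k t := by
  unfold F
  have h1 := ee_pos k
  have h2 : max 0 (1 - hh k t / ee k) ≤ 1 := by
    refine max_le zero_le_one ?_
    have := hh_nonneg k t
    have : 0 ≤ hh k t / ee k := by positivity
    linarith
  nlinarith

lemma F_pos (k : ℕ) (t : ℝ) : 0 < F k t := by linarith [F_ge k t, ee_le k]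

lemma F_eq_two {k : ℕ} {t : ℝ} (h : ee k ≤ hh k t) : F k t = 2 := by
  unfold F
  have h1 := ee_pos k
  have : 1 ≤ hh k t / ee k := by rw [le_div_iff₀ h1]; linarith
  rw [max_eq_left (by linarith)]; ring

lemma F_of_hh_zero {k : ℕ} {t : ℝ} (h : hh k t = 0) : F k t = 1 - ee k := by
  unfold F; rw [h]; simp; ring

lemma F_lt_succ {k : ℕ} {t : ℝ} (h : hh k t < ee k) : F k t < F (k + 1) t := by
  unfold F
  have h1 := ee_pos k
  have h2 := ee_pos (k + 1)
  have h3 : ee (k + 1) < ee k := ee_strictAnti (Nat.lt_succ_self k)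
  have h4 : hh k t ≤ hh (k + 1) t := hh_mono t (Nat.le_succ k)
  have h5 := hh_nonneg k t
  have h6 : hh k t / ee k < 1 := by rw [div_lt_iff₀ h1]; linarith
  have h7 : hh k t / ee k ≤ hh (k + 1) t / ee (k + 1) := by
    have := hh_nonneg (k + 1) t
    gcongr
  have h8 : max 0 (1 - hh k t / ee k) = 1 - hh k t / ee k := max_eq_right (by linarith)
  have h9 : max 0 (1 - hh (k + 1) t / ee (k + 1)) ≤ 1 - hh k t / ee k :=
    max_le (by linarith) (by linarith)
  have h10 : 0 ≤ max 0 (1 - hh (k + 1) t / ee (k + 1)) := le_max_left _ _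
  rw [h8]
  nlinarith

lemma F_le_succ (k : ℕ) (t : ℝ) : F k t ≤ F (k + 1) t := by
  rcases lt_or_ge (hh k t) (ee k) with h | h
  · exact (F_lt_succ h).le
  · have h3 : ee (k + 1) < ee k := ee_strictAnti (Nat.lt_succ_self k)
    have h4 : hh k t ≤ hh (k + 1) t := hh_mono t (Nat.le_succ k)
    rw [F_eq_two h, F_eq_two (by linarith)]

lemma F_mono (t : ℝ) : Monotone fun k => F k t := monotone_nat_of_le_succ fun k => F_le_succ k t

lemma F_lt_of_lt {k l : ℕ} {t : ℝ} (hkl : k < l) (h : hh l t ≤ ee l) : F k t < F l t := by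
  have h1 : hh k t < ee k :=
    lt_of_le_of_lt ((hh_mono t hkl.le).trans h) (ee_strictAnti hkl)
  exact lt_of_lt_of_le (F_lt_succ h1) (F_mono t hkl)

lemma hh_lt_of_F_lt {k : ℕ} {t : ℝ} (h : F k t < 2) : hh k t < ee k := by
  by_contra h'
  rw [F_eq_two (not_lt.1 h')] at h
  exact lt_irrefl _ h

lemma F_add_int (k : ℕ) (t : ℝ) (n : ℤ) : F k (t + n) = F k t := by
  unfold F; rw [hh_add_int]

lemma continuous_F (k : ℕ) : Continuous (F k) := by
  unfold F; have := continuous_hh k; fun_prop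

noncomputable def dd (t : ℝ) : ℝ := ∑' i : ℕ, hh i t / 4 ^ i

lemma dd_term_le (t : ℝ) (i : ℕ) : hh i t / 4 ^ i ≤ (1 / 2) / 2 / 2 ^ i := by
  have h1 := hh_le i t
  have h2 : (2 : ℝ) ^ i ≤ 4 ^ i := by gcongr; norm_num
  calc hh i t / 4 ^ i ≤ (1 / 4) / 2 ^ i := by gcongr
    _ = _ := by ring

lemma dd_summable (t : ℝ) : Summable fun i : ℕ => hh i t / 4 ^ i :=
  Summable.of_nonneg_of_le (fun i => by have := hh_nonneg i t; positivity) (dd_term_le t)
    (summable_geometric_two' (1 / 2))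

lemma continuous_dd : Continuous dd := by
  unfold dd
  refine continuous_tsum (u := fun i => (1 / 2) / 2 / 2 ^ i) (fun i => ?_)
    (summable_geometric_two' (1 / 2)) (fun i t => ?_)
  · have := continuous_hh i; fun_prop
  · rw [Real.norm_of_nonneg (by have := hh_nonneg i t; positivity)]
    exact dd_term_le t i

lemma dd_nonneg (t : ℝ) : 0 ≤ dd t :=
  tsum_nonneg fun i => by have := hh_nonneg i t; positivity

lemma dd_le (t : ℝ) : dd t ≤ 1 / 2 := by
  unfold dd
  rw [← tsum_geometric_two' (1 / 2)]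
  exact (dd_summable t).tsum_le_tsum (dd_term_le t) (summable_geometric_two' (1 / 2))

lemma dd_pos {k : ℕ} {t : ℝ} (h : 0 < hh k t) : 0 < dd t :=
  (dd_summable t).tsum_pos (fun i => by have := hh_nonneg i t; positivity) k (by positivity)

lemma dd_le_of_window {k : ℕ} {t : ℝ} (h : hh k t ≤ ee k) : dd t ≤ 2 * ee k := by
  unfold dd
  rw [← tsum_geometric_two' (2 * ee k)]
  refine (dd_summable t).tsum_le_tsum (fun i => ?_) (summable_geometric_two' _)
  have h2 : (2 : ℝ) ^ i ≤ 4 ^ i := by gcongr; norm_num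
  have h0 := ee_pos k
  rcases le_or_gt i k with hi | hi
  · have h1 : hh i t ≤ ee k := (hh_mono t hi).trans h
    calc hh i t / 4 ^ i ≤ ee k / 2 ^ i := by gcongr
      _ = _ := by ring
  · have h1 := hh_le i t
    have h3 : (2 : ℝ) ^ (k + 1) ≤ 2 ^ i := pow_le_pow_right₀ (by norm_num) hi
    have h4 : (4 : ℝ) ^ i = 2 ^ i * 2 ^ i := by rw [← mul_pow]; norm_num
    calc hh i t / 4 ^ i ≤ (1 / 4) / (2 ^ (k + 1) * 2 ^ i) := by rw [h4]; gcongr
      _ = _ := by unfold ee; rw [pow_succ]; field_simp; norm_num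

lemma dd_add_int (t : ℝ) (n : ℤ) : dd (t + n) = dd t := by
  unfold dd; simp_rw [hh_add_int]

noncomputable def den (t s : ℝ) : ℝ := max (1 - s) 0 + dd t

noncomputable def rho (t s : ℝ) : ℝ := s / den t s

noncomputable def E (t : ℝ) : ℂ := Complex.exp (2 * Real.pi * (t : ℂ) * Complex.I)

noncomputable def Phi (x : ℝ × ℝ) : ℂ := (rho x.1 x.2 : ℂ) * E x.1

def Sig (k : ℕ) : Set (ℝ × ℝ) := {x | 0 ≤ x.2 ∧ x.2 ≤ F k x.1}

def St : Set (ℝ × ℝ) := ⋃ k, Sig k

lemma mem_St {x : ℝ × ℝ} : x ∈ St ↔ 0 ≤ x.2 ∧ ∃ k, x.2 ≤ F k x.1 := by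
  simp [St, Sig]

lemma Sig_subset (k : ℕ) : Sig k ⊆ St := subset_iUnion Sig k

lemma den_pos {x : ℝ × ℝ} (hx : x ∈ St) : 0 < den x.1 x.2 := by
  obtain ⟨-, k, hk⟩ := mem_St.1 hx
  unfold den
  rcases lt_or_ge x.2 1 with h | h
  · have : 0 < max (1 - x.2) 0 := lt_max_of_lt_left (by linarith)
    linarith [dd_nonneg x.1]
  · have h1 : 0 < hh k x.1 := by
      rcases (hh_nonneg k x.1).lt_or_eq with h1 | h1
      · exact h1
      · rw [F_of_hh_zero h1.symm] at hk; linarith [ee_pos k]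
    have : 0 ≤ max (1 - x.2) 0 := le_max_right _ _
    linarith [dd_pos h1]

lemma den_anti (t : ℝ) {s s' : ℝ} (h : s ≤ s') : den t s' ≤ den t s := by
  unfold den; gcongr

lemma rho_lt {t s s' : ℝ} (h0 : 0 ≤ s) (h : s < s') (hp : 0 < den t s') : rho t s < rho t s' := by
  unfold rho
  have h1 := den_anti t h.le
  calc s / den t s ≤ s / den t s' := by gcongr
    _ < s' / den t s' := by gcongr

lemma rho_zero (t : ℝ) : rho t 0 = 0 := by simp [rho]

lemma rho_nonneg {x : ℝ × ℝ} (hx : x ∈ St) : 0 ≤ rho x.1 x.2 :=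
  div_nonneg (mem_St.1 hx).1 (den_pos hx).le

lemma rho_pos {x : ℝ × ℝ} (hx : x ∈ St) (h : 0 < x.2) : 0 < rho x.1 x.2 :=
  div_pos h (den_pos hx)

lemma rho_add_int (t s : ℝ) (n : ℤ) : rho (t + n) s = rho t s := by
  unfold rho den; rw [dd_add_int]

lemma E_add (t u : ℝ) : E (t + u) = E t * E u := by
  unfold E; rw [← Complex.exp_add]; push_cast; ring_nf

lemma E_int (n : ℤ) : E n = 1 := by
  unfold E
  have := Complex.exp_int_mul_two_pi_mul_I n
  rw [← this]; push_cast; ring_nf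

lemma E_add_int (t : ℝ) (n : ℤ) : E (t + n) = E t := by rw [E_add, E_int, mul_one]

lemma norm_E (t : ℝ) : ‖E t‖ = 1 := by
  unfold E
  have := Complex.norm_exp_ofReal_mul_I (2 * Real.pi * t)
  rw [← this]; push_cast; ring_nf

lemma E_ne_zero (t : ℝ) : E t ≠ 0 := Complex.exp_ne_zero _

lemma continuous_E : Continuous E := by unfold E; fun_prop

lemma E_eq_iff {t u : ℝ} : E t = E u ↔ ∃ n : ℤ, u = t + n := by
  constructor
  · intro h
    unfold E at h
    obtain ⟨n, hn⟩ := Complex.exp_eq_exp_iff_exists_int.1 h.symm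
    refine ⟨n, ?_⟩
    have h1 : (2 * Real.pi * Complex.I : ℂ) ≠ 0 := by
      simp [Real.pi_ne_zero]
    have h2 : (u : ℂ) = t + n := by
      apply mul_left_cancel₀ h1
      linear_combination hn
    exact_mod_cast h2
  · rintro ⟨n, rfl⟩; rw [E_add_int]

lemma exists_E (z : ℂ) : ∃ t ∈ Icc (0 : ℝ) 1, z = (‖z‖ : ℂ) * E t := by
  have h : z = (‖z‖ : ℂ) * E (Complex.arg z / (2 * Real.pi)) := by
    unfold E
    conv_lhs => rw [← Complex.norm_mul_exp_arg_mul_I z]
    congr 2
    have : (Real.pi : ℂ) ≠ 0 := by simp [Real.pi_ne_zero]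
    push_cast; field_simp
  refine ⟨Int.fract (Complex.arg z / (2 * Real.pi)), ⟨Int.fract_nonneg _, (Int.fract_lt_one _).le⟩, ?_⟩
  rw [← E_add_int _ ⌊Complex.arg z / (2 * Real.pi)⌋, Int.fract_add_floor]
  exact h

lemma norm_Phi {x : ℝ × ℝ} (hx : x ∈ St) : ‖Phi x‖ = rho x.1 x.2 := by
  unfold Phi
  rw [norm_mul, norm_E, mul_one, Complex.norm_real, Real.norm_of_nonneg (rho_nonneg hx)]

lemma Phi_add_int (t s : ℝ) (n : ℤ) : Phi (t + n, s) = Phi (t, s) := by
  unfold Phi; simp only [rho_add_int, E_add_int]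

lemma Phi_zero (t : ℝ) : Phi (t, 0) = 0 := by simp [Phi, rho_zero]

lemma mem_St_add_int {t s : ℝ} (n : ℤ) : (t + n, s) ∈ St ↔ (t, s) ∈ St := by
  simp [mem_St, F_add_int]

lemma mem_St_of_le {t s s' : ℝ} (h : (t, s) ∈ St) (h0 : 0 ≤ s') (hs : s' ≤ s) : (t, s') ∈ St := by
  obtain ⟨-, k, hk⟩ := mem_St.1 h
  exact mem_St.2 ⟨h0, k, hs.trans hk⟩

lemma rho_inj {t s s' : ℝ} (h : (t, s) ∈ St) (h' : (t, s') ∈ St) (e : rho t s = rho t s') :
    s = s' := by
  rcases lt_trichotomy s s' with h1 | h1 | h1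
  · exact absurd e (rho_lt (mem_St.1 h).1 h1 (den_pos h')).ne
  · exact h1
  · exact absurd e (rho_lt (mem_St.1 h').1 h1 (den_pos h)).ne'

lemma Phi_eq_iff {x y : ℝ × ℝ} (hx : x ∈ St) (hy : y ∈ St) :
    Phi x = Phi y ↔ x.2 = y.2 ∧ (x.2 = 0 ∨ ∃ n : ℤ, y.1 = x.1 + n) := by
  obtain ⟨t, s⟩ := x
  obtain ⟨u, r⟩ := y
  constructor
  · intro h
    have h1 : rho t s = rho u r := by
      have := congrArg norm h
      rwa [norm_Phi hx, norm_Phi hy] at this
    rcases (mem_St.1 hx).1.lt_or_eq with hs | hs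
    · have h2 : 0 < rho t s := rho_pos hx hs
      have h3 : E t = E u := by
        unfold Phi at h
        simp only at h
        rw [← h1] at h
        exact mul_left_cancel₀ (by exact_mod_cast h2.ne') h
      obtain ⟨n, rfl⟩ := E_eq_iff.1 h3
      rw [rho_add_int] at h1
      exact ⟨rho_inj hx ((mem_St_add_int n).1 hy) h1, Or.inr ⟨n, rfl⟩⟩
    · simp only at hs
      subst hs
      rw [rho_zero] at h1
      have : r = 0 := by
        rcases (mem_St.1 hy).1.lt_or_eq with hr | hr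
        · exact absurd h1 (rho_pos hy hr).ne
        · exact hr.symm
      exact ⟨this.symm, Or.inl rfl⟩
  · rintro ⟨h1, h2 | ⟨n, h2⟩⟩
    · simp only at h1 h2
      subst h1; subst h2; rw [Phi_zero, Phi_zero]
    · simp only at h1 h2
      subst h1; subst h2; rw [Phi_add_int]

lemma continuousOn_rho : ContinuousOn (fun x : ℝ × ℝ => rho x.1 x.2) St := by
  unfold rho
  refine ContinuousOn.div continuous_snd.continuousOn ?_ fun x hx => (den_pos hx).ne'
  unfold den
  have := continuous_dd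
  fun_prop

lemma continuousOn_Phi : ContinuousOn Phi St := by
  unfold Phi
  exact (Complex.continuous_ofReal.comp_continuousOn continuousOn_rho).mul
    (continuous_E.comp continuous_fst).continuousOn

/-- the surface is star shaped -/
lemma smul_mem_image {x : ℝ × ℝ} (hx : x ∈ St) {c : ℝ} (h0 : 0 ≤ c) (h1 : c ≤ 1) :
    ∃ s, 0 ≤ s ∧ s ≤ x.2 ∧ Phi (x.1, s) = c * Phi x := by
  obtain ⟨t, s⟩ := x
  have hs := (mem_St.1 hx).1
  have hc : ContinuousOn (fun r => rho t r) (Icc 0 s) :=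
    continuousOn_rho.comp (f := fun r => (t, r)) (by fun_prop)
      fun r hr => mem_St_of_le hx hr.1 hr.2
  have h2 := rho_nonneg hx
  obtain ⟨r, hr, e⟩ := intermediate_value_Icc hs hc
    (show c * rho t s ∈ Icc (rho t 0) (rho t s) from
      ⟨by rw [rho_zero]; positivity, by nlinarith⟩)
  refine ⟨r, hr.1, hr.2, ?_⟩
  simp only at e
  unfold Phi
  simp only [e]; push_cast; ring

/-- the surface contains the disc of radius one -/
lemma exists_Phi_of_norm_le {z : ℂ} (hz : ‖z‖ ≤ 1) : ∃ x ∈ St, Phi x = z := by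
  obtain ⟨t, -, ht⟩ := exists_E z
  have h1 : (t, (7 / 8 : ℝ)) ∈ St := mem_St.2 ⟨by norm_num, 0, by
    have := F_ge 0 t; have := ee_le 0; linarith⟩
  have h2 : 1 ≤ rho t (7 / 8) := by
    unfold rho
    rw [le_div_iff₀ (den_pos h1)]
    unfold den
    have := dd_le t
    rw [max_eq_left (by norm_num)]; linarith
  obtain ⟨s, hs0, hs1, e⟩ := smul_mem_image h1 (c := ‖z‖ / rho t (7 / 8)) (by positivity)
    (by rw [div_le_iff₀ (by linarith)]; linarith)
  refine ⟨(t, s), mem_St_of_le h1 hs0 hs1, ?_⟩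
  rw [e]
  conv_rhs => rw [ht]
  unfold Phi
  have : (rho t (7 / 8) : ℂ) ≠ 0 := by exact_mod_cast (by linarith : rho t (7 / 8) ≠ 0)
  push_cast; field_simp

/-- points above a level `k` arc are far from the origin -/
lemma rho_ge {k : ℕ} {x : ℝ × ℝ} (hx : x ∈ St) (h : hh k x.1 ≤ ee k) (hs : F k x.1 ≤ x.2) :
    2 ^ (k + 1) ≤ rho x.1 x.2 := by
  unfold rho
  rw [le_div_iff₀ (den_pos hx)]
  have h1 := F_ge k x.1
  have h2 := dd_le_of_window h
  have h3 := ee_pos k
  have h4 : den x.1 x.2 ≤ 3 * ee k := by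
    unfold den
    have : max (1 - x.2) 0 ≤ ee k := max_le (by linarith) h3.le
    linarith
  have h5 : (2 : ℝ) ^ (k + 1) * (3 * ee k) = 3 / 4 := by
    unfold ee; rw [pow_succ]; field_simp; norm_num
  have h6 := ee_le k
  calc (2 : ℝ) ^ (k + 1) * den x.1 x.2 ≤ 2 ^ (k + 1) * (3 * ee k) := by gcongr
    _ ≤ x.2 := by rw [h5]; linarith

/-- the angular maps -/
noncomputable def T (j : ℤ) (k : ℕ) (t : ℝ) : ℝ := (U k).symm (U k t + j)

lemma U_T (j : ℤ) (k : ℕ) (t : ℝ) : U k (T j k t) = U k t + j := by simp [T]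

lemma T_T (j j' : ℤ) (k : ℕ) (t : ℝ) : T j k (T j' k t) = T (j + j') k t := by
  unfold T; simp only [OrderIso.apply_symm_apply]; push_cast; ring_nf

lemma T_zero (k : ℕ) (t : ℝ) : T 0 k t = t := by simp [T]

lemma T_succ (j : ℤ) (k : ℕ) (t : ℝ) : T (2 * j) (k + 1) t = T j k t := by
  apply (U (k + 1)).injective
  rw [U_T, U_succ k (T j k t), U_T, pi1_add_int, U_succ]; push_cast; ring

lemma T_lift (j : ℤ) (k m : ℕ) (t : ℝ) : T (2 ^ m * j) (k + m) t = T j k t := by
  induction m with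
  | zero => simp
  | succ m ih =>
    rw [← ih, ← T_succ (2 ^ m * j) (k + m), pow_succ, ← add_assoc]; congr 1; ring

lemma T_add_int (j : ℤ) (k : ℕ) (t : ℝ) (n : ℤ) : T j k (t + n) = T j k t + n := by
  unfold T
  rw [U_add_int, ← U_symm_add_int]; congr 1; ring

lemma T_level_zero (j : ℤ) (t : ℝ) : T j 0 t = t + j := rfl

lemma T_pow (n : ℤ) (k : ℕ) (t : ℝ) : T (2 ^ k * n) k t = t + n := by
  have := T_lift n 0 k t
  rwa [zero_add] at this

lemma U_T_of_le (j : ℤ) {k l : ℕ} (h : k ≤ l) (t : ℝ) :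
    U l (T j k t) = U l t + ((2 ^ (l - k) * j : ℤ) : ℝ) := by
  rw [← T_lift j k (l - k), Nat.add_sub_cancel' h, U_T]

lemma hh_T (j : ℤ) {k l : ℕ} (h : k ≤ l) (t : ℝ) : hh l (T j k t) = hh l t := by
  unfold hh; rw [U_T_of_le j h, tent_add_int]

lemma F_T (j : ℤ) {k l : ℕ} (h : k ≤ l) (t : ℝ) : F l (T j k t) = F l t := by
  unfold F; rw [hh_T j h]

lemma continuous_T (j : ℤ) (k : ℕ) : Continuous (T j k) := by
  unfold T
  exact (continuous_U_symm k).comp ((continuous_U k).add continuous_const)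

lemma T_mem_St (j : ℤ) (k : ℕ) {x : ℝ × ℝ} (hx : x ∈ St) : (T j k x.1, x.2) ∈ St := by
  obtain ⟨h0, l, hl⟩ := mem_St.1 hx
  refine mem_St.2 ⟨h0, max k l, ?_⟩
  simp only
  rw [F_T j (le_max_left k l)]
  exact hl.trans (F_mono x.1 (le_max_right k l))

end Pool.Agent.Lib.MP_310563_al
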