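import Pool.Agent.Lib.MP_310563_al.Builder
import Pool.Agent.Lib.MP_310563_al.Model

set_option autoImplicit false

open Set Filter Topology unitInterval

namespace Pool.Agent.Lib.MP_310563_al

/-- the region of a polygon of level `k` in the coordinates (angle, height) -/
def Q (k : ℕ) (m : ℤ) : Set (ℝ × ℝ) :=
  {x | U k x.1 ∈ Icc ((m : ℝ) + (1 / 4 - ee k)) (m + 1 - (1 / 4 - ee k)) ∧
    F k x.1 ≤ x.2 ∧ x.2 ≤ F (k + 1) x.1}

lemma Q_subset (k : ℕ) (m : ℤ) : Q k m ⊆ St := fun x hx =>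
  mem_St.2 ⟨(F_pos k x.1).le.trans hx.2.1, k + 1, hx.2.2⟩

lemma mem_Q {k : ℕ} {m : ℤ} {x : ℝ × ℝ} : x ∈ Q k m ↔
    U k x.1 ∈ Icc (m : ℝ) (m + 1) ∧ hh k x.1 ≤ ee k ∧ F k x.1 ≤ x.2 ∧ x.2 ≤ F (k + 1) x.1 := by
  unfold Q
  rw [mem_ofPred_eq, tent_le_iff m (ee_pos k) (ee_lt k), and_assoc]; rfl

lemma Q_window {k : ℕ} {m : ℤ} {x : ℝ × ℝ} (hx : x ∈ Q k m) :
    (m : ℝ) < U k x.1 ∧ U k x.1 < m + 1 := by
  have := ee_lt k
  exact ⟨by linarith [hx.1.1], by linarith [hx.1.2]⟩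

noncomputable def tau (k : ℕ) (m : ℤ) (ξ : ℝ) : ℝ := (U k).symm (m + 1 / 2 + ξ * (1 / 4 + ee k))

lemma U_tau (k : ℕ) (m : ℤ) (ξ : ℝ) : U k (tau k m ξ) = m + 1 / 2 + ξ * (1 / 4 + ee k) := by
  simp [tau]

lemma continuous_tau (k : ℕ) (m : ℤ) : Continuous (tau k m) := by
  unfold tau
  exact (continuous_U_symm k).comp (by fun_prop)

lemma tau_injective (k : ℕ) (m : ℤ) : Function.Injective (tau k m) := by
  intro a b h
  have h1 := congrArg (U k) h
  rw [U_tau, U_tau] at h1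
  have h2 : (1 / 4 + ee k) ≠ 0 := by linarith [ee_pos k]
  exact mul_right_cancel₀ h2 (by linarith)

lemma tau_mem {k : ℕ} {m : ℤ} {ξ : ℝ} (h : ξ ∈ Icc (-1 : ℝ) 1) :
    U k (tau k m ξ) ∈ Icc ((m : ℝ) + (1 / 4 - ee k)) (m + 1 - (1 / 4 - ee k)) := by
  rw [U_tau]
  have := ee_pos k
  constructor <;> nlinarith [h.1, h.2]

lemma exists_tau {k : ℕ} {m : ℤ} {t : ℝ}
    (h : U k t ∈ Icc ((m : ℝ) + (1 / 4 - ee k)) (m + 1 - (1 / 4 - ee k))) :
    ∃ ξ ∈ Icc (-1 : ℝ) 1, tau k m ξ = t := by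
  have h0 : 0 < 1 / 4 + ee k := by linarith [ee_pos k]
  refine ⟨(U k t - m - 1 / 2) / (1 / 4 + ee k), ⟨?_, ?_⟩, ?_⟩
  · rw [le_div_iff₀ h0]; linarith [h.1]
  · rw [div_le_iff₀ h0]; linarith [h.2]
  · apply (U k).injective
    rw [U_tau, div_mul_cancel₀ _ h0.ne']; ring

lemma nz_half_add (m : ℤ) {y : ℝ} (h : |y| ≤ 1 / 2) : nz (m + 1 / 2 + y) = 1 / 2 - |y| := by
  have h1 := abs_le.1 h
  rcases le_total 0 y with hy | hy
  · rw [show (m : ℝ) + 1 / 2 + y = (y - 1 / 2) + ((m + 1 : ℤ) : ℝ) by push_cast; ring, nz_add_int,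
      nz_eq_abs (by rw [abs_le]; constructor <;> linarith), abs_of_nonpos (by linarith),
      abs_of_nonneg hy]; ring
  · rw [show (m : ℝ) + 1 / 2 + y = (y + 1 / 2) + m by ring, nz_add_int,
      nz_eq_abs (by rw [abs_le]; constructor <;> linarith), abs_of_nonneg (by linarith),
      abs_of_nonpos hy]; ring

lemma hh_tau {k : ℕ} {m : ℤ} {ξ : ℝ} (h : ξ ∈ Icc (-1 : ℝ) 1) :
    hh k (tau k m ξ) = max 0 (|ξ| * (1 / 4 + ee k) - 1 / 4) := by
  have h0 := ee_pos k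
  have h1 := ee_lt k
  have h2 : |ξ| ≤ 1 := abs_le.2 h
  have h3 : |ξ * (1 / 4 + ee k)| = |ξ| * (1 / 4 + ee k) := by
    rw [abs_mul, abs_of_pos (by linarith : 0 < 1 / 4 + ee k)]
  unfold hh tent
  rw [U_tau, nz_half_add m (by rw [h3]; nlinarith), h3]
  congr 1; ring

lemma gap_pos {k : ℕ} {m : ℤ} {ξ : ℝ} (h : ξ ∈ Icc (-1 : ℝ) 1) (h' : ξ ^ 2 ≠ 1) :
    F k (tau k m ξ) < F (k + 1) (tau k m ξ) := by
  apply F_lt_succ
  rw [hh_tau h]
  have h0 := ee_pos k
  have h2 : |ξ| < 1 := by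
    refine lt_of_le_of_ne (abs_le.2 h) fun e => h' ?_
    rw [← sq_abs, e]; norm_num
  exact max_lt h0 (by nlinarith)

lemma F_end {k : ℕ} {m : ℤ} {ξ : ℝ} (h : ξ ∈ Icc (-1 : ℝ) 1) (h' : ξ ^ 2 = 1) :
    F k (tau k m ξ) = 2 := by
  apply F_eq_two
  rw [hh_tau h]
  have h2 : |ξ| = 1 := by
    have : |ξ| ^ 2 = 1 := by rw [sq_abs, h']
    nlinarith [abs_nonneg ξ]
  rw [h2]
  exact le_max_of_le_right (by linarith)

lemma gap_zero {k : ℕ} {m : ℤ} {ξ : ℝ} (h : ξ ∈ Icc (-1 : ℝ) 1) (h' : ξ ^ 2 = 1) :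
    F (k + 1) (tau k m ξ) = F k (tau k m ξ) :=
  le_antisymm (by rw [F_end h h']; exact F_le_two _ _) (F_le_succ _ _)

noncomputable def lam (k : ℕ) : ℝ := ee k / (1 + ee k)

lemma lam_pos (k : ℕ) : 0 < lam k := by unfold lam; have := ee_pos k; positivity
lemma lam_lt (k : ℕ) : lam k < 1 := by
  unfold lam; have := ee_pos k; rw [div_lt_iff₀ (by linarith)]; linarith

noncomputable def kap (k : ℕ) (y : ℝ) : ℝ := lam k + lam k * min y 0 + (1 - lam k) * max y 0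

lemma kap_strictMono (k : ℕ) : StrictMono (kap k) := by
  intro a b hab
  have h0 := lam_pos k
  have h1 := lam_lt k
  unfold kap
  rcases le_total a 0 with ha | ha <;> rcases le_total b 0 with hb | hb
  · rw [min_eq_left ha, min_eq_left hb, max_eq_right ha, max_eq_right hb]; nlinarith
  · rw [min_eq_left ha, min_eq_right hb, max_eq_right ha, max_eq_left hb]
    rcases ha.lt_or_eq with ha' | ha'
    · nlinarith
    · subst ha'; nlinarith
  · linarith
  · rw [min_eq_right ha, min_eq_right hb, max_eq_left ha, max_eq_left hb]; nlinarith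

lemma kap_neg_one (k : ℕ) : kap k (-1) = 0 := by
  unfold kap; rw [min_eq_left (by norm_num), max_eq_right (by norm_num)]; ring
lemma kap_one (k : ℕ) : kap k 1 = 1 := by
  unfold kap; rw [min_eq_right (by norm_num), max_eq_left (by norm_num)]; ring
lemma kap_zero (k : ℕ) : kap k 0 = lam k := by unfold kap; simp
lemma continuous_kap (k : ℕ) : Continuous (kap k) := by unfold kap; fun_prop

lemma kap_mem {k : ℕ} {y : ℝ} (h : y ∈ Icc (-1 : ℝ) 1) : kap k y ∈ Icc (0 : ℝ) 1 :=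
  ⟨by rw [← kap_neg_one k]; exact (kap_strictMono k).monotone h.1,
    by rw [← kap_one k]; exact (kap_strictMono k).monotone h.2⟩

lemma exists_kap (k : ℕ) {r : ℝ} (h : r ∈ Icc (0 : ℝ) 1) : ∃ y ∈ Icc (-1 : ℝ) 1, kap k y = r :=
  intermediate_value_Icc (by norm_num) (continuous_kap k).continuousOn
    (by rwa [kap_neg_one, kap_one])

noncomputable def lensPt (k : ℕ) (m : ℤ) (x : ℝ × ℝ) : ℝ × ℝ :=
  (tau k m x.1, F k (tau k m x.1) + kap k x.2 * (F (k + 1) (tau k m x.1) - F k (tau k m x.1)))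

lemma continuous_lensPt (k : ℕ) (m : ℤ) : Continuous (lensPt k m) := by
  unfold lensPt
  have := continuous_tau k m
  have := continuous_F k
  have := continuous_F (k + 1)
  have := continuous_kap k
  fun_prop

def Sq : Set (ℝ × ℝ) := Icc (-1) 1 ×ˢ Icc (-1) 1

lemma lensPt_mem {k : ℕ} {m : ℤ} {x : ℝ × ℝ} (hx : x ∈ Sq) : lensPt k m x ∈ Q k m := by
  have h1 := kap_mem (k := k) hx.2
  have h2 := F_le_succ k (tau k m x.1)
  refine ⟨tau_mem hx.1, ?_, ?_⟩ <;> simp only [lensPt] <;> nlinarith [h1.1, h1.2]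

lemma lensPt_image (k : ℕ) (m : ℤ) : lensPt k m '' Sq = Q k m := by
  refine Subset.antisymm (image_subset_iff.2 fun x hx => lensPt_mem hx) ?_
  rintro ⟨t, s⟩ ⟨h1, h2, h3⟩
  obtain ⟨ξ, hξ, rfl⟩ := exists_tau h1
  simp only at h2 h3
  rcases (F_le_succ k (tau k m ξ)).lt_or_eq with h | h
  · obtain ⟨y, hy, e⟩ := exists_kap k
      (r := (s - F k (tau k m ξ)) / (F (k + 1) (tau k m ξ) - F k (tau k m ξ)))
      ⟨div_nonneg (by linarith) (by linarith), by rw [div_le_iff₀ (by linarith)]; linarith⟩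
    refine ⟨(ξ, y), ⟨hξ, hy⟩, ?_⟩
    simp only [lensPt, e, Prod.mk.injEq, true_and]
    have : F (k + 1) (tau k m ξ) - F k (tau k m ξ) ≠ 0 := by linarith
    field_simp; ring
  · refine ⟨(ξ, 0), ⟨hξ, by simp⟩, ?_⟩
    simp only [lensPt, Prod.mk.injEq, true_and]
    rw [← h] at h3 ⊢
    linarith

noncomputable def lensDisc (x : ℝ × ℝ) : ℂ := ⟨x.1, x.2 * Real.sqrt (1 - x.1 ^ 2)⟩

lemma continuous_lensDisc : Continuous lensDisc := by
  unfold lensDisc
  have : Continuous fun x : ℝ × ℝ => (x.1, x.2 * Real.sqrt (1 - x.1 ^ 2)) := by fun_prop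
  exact Complex.equivRealProdCLM.symm.continuous.comp this

lemma normSq_lensDisc {x : ℝ × ℝ} (hx : x ∈ Sq) :
    ‖lensDisc x‖ ^ 2 = x.1 ^ 2 + x.2 ^ 2 * (1 - x.1 ^ 2) := by
  have h : 0 ≤ 1 - x.1 ^ 2 := by nlinarith [hx.1.1, hx.1.2]
  rw [Complex.sq_norm, Complex.normSq_apply]
  simp only [lensDisc]
  have := Real.sq_sqrt h
  nlinarith

lemma lensDisc_image : lensDisc '' Sq = Metric.closedBall (0 : ℂ) 1 := by
  ext z
  rw [mem_closedBall_zero_iff]
  constructor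
  · rintro ⟨x, hx, rfl⟩
    have h := normSq_lensDisc hx
    have h1 : 0 ≤ 1 - x.1 ^ 2 := by nlinarith [hx.1.1, hx.1.2]
    have h2 : x.2 ^ 2 ≤ 1 := by nlinarith [hx.2.1, hx.2.2]
    have h3 : ‖lensDisc x‖ ^ 2 ≤ 1 := by nlinarith
    nlinarith [norm_nonneg (lensDisc x)]
  · intro hz
    have h1 : z.re ^ 2 + z.im ^ 2 ≤ 1 := by
      have : ‖z‖ ^ 2 ≤ 1 := by nlinarith [norm_nonneg z]
      rw [Complex.sq_norm, Complex.normSq_apply] at this
      nlinarith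
    have h2 : |z.im| ≤ Real.sqrt (1 - z.re ^ 2) := Real.abs_le_sqrt (by linarith)
    have h3 : z.re ∈ Icc (-1 : ℝ) 1 := by constructor <;> nlinarith [sq_nonneg z.im]
    rcases (Real.sqrt_nonneg (1 - z.re ^ 2)).lt_or_eq with h | h
    · refine ⟨(z.re, z.im / Real.sqrt (1 - z.re ^ 2)), ⟨h3, ?_, ?_⟩, ?_⟩
      · rw [le_div_iff₀ h]; linarith [(abs_le.1 h2).1]
      · rw [div_le_iff₀ h]; linarith [(abs_le.1 h2).2]
      · apply Complex.ext
        · rfl
        · simp only [lensDisc]; field_simp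
    · refine ⟨(z.re, 0), ⟨h3, by simp⟩, ?_⟩
      apply Complex.ext
      · rfl
      · simp only [lensDisc, zero_mul]
        rw [← h] at h2
        exact (abs_nonpos_iff.1 h2).symm

lemma lensDisc_eq_iff {x y : ℝ × ℝ} (hx : x ∈ Sq) :
    lensDisc x = lensDisc y ↔ x.1 = y.1 ∧ (x.2 = y.2 ∨ x.1 ^ 2 = 1) := by
  have h : 0 ≤ 1 - x.1 ^ 2 := by nlinarith [hx.1.1, hx.1.2]
  simp only [lensDisc, Complex.mk.injEq]
  refine and_congr_right fun e => ?_
  rw [← e, mul_eq_mul_right_iff, Real.sqrt_eq_zero h, sub_eq_zero, eq_comm (a := (1 : ℝ))]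

lemma int_eq_zero_of_window {k : ℕ} {m : ℤ} {t : ℝ} {n : ℤ} (h1 : (m : ℝ) < U k t ∧ U k t < m + 1)
    (h2 : (m : ℝ) < U k (t + n) ∧ U k (t + n) < m + 1) : n = 0 := by
  rw [U_add_int] at h2
  have h3 : ((2 ^ k * n : ℤ) : ℝ) < 1 := by linarith [h1.1, h2.2]
  have h4 : (-1 : ℝ) < ((2 ^ k * n : ℤ) : ℝ) := by linarith [h1.2, h2.1]
  have h5 : 2 ^ k * n = 0 := by
    have a : 2 ^ k * n < 1 := by exact_mod_cast h3
    have b : -1 < 2 ^ k * n := by exact_mod_cast h4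
    omega
  exact (mul_eq_zero.1 h5).resolve_left (by positivity)

lemma Phi_injOn_Q (k : ℕ) (m : ℤ) : InjOn Phi (Q k m) := by
  intro x hx y hy h
  obtain ⟨h1, h2 | ⟨n, h2⟩⟩ := (Phi_eq_iff (Q_subset k m hx) (Q_subset k m hy)).1 h
  · linarith [F_pos k x.1, hx.2.1]
  · have := int_eq_zero_of_window (Q_window hx) (by rw [← h2]; exact Q_window hy)
    subst this
    exact Prod.ext (by simpa using h2.symm) h1

lemma U_symm_odd (k : ℕ) (m : ℤ) : (U (k + 1)).symm ((2 * m + 1 : ℤ) : ℝ) = tau k m 0 := by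
  apply (U (k + 1)).injective
  rw [OrderIso.apply_symm_apply, U_succ, U_tau, zero_mul, add_zero, add_comm (m : ℝ), pi1_add_int,
    pi1_half]
  push_cast; ring

lemma exists_chart_Q (k : ℕ) (m : ℤ) : ∃ c : C(Disc, ℂ), Function.Injective c ∧
    range c = Phi '' Q k m ∧ c zeroDisc = Phi ((U (k + 1)).symm ((2 * m + 1 : ℤ) : ℝ), 1) ∧
    ∀ x ∈ Q k m, (x.2 = F k x.1 ∨ x.2 = F (k + 1) x.1) → Phi x ∈ c '' {z | ‖(z : ℂ)‖ = 1} := by
  have hK : IsCompact Sq := isCompact_Icc.prod isCompact_Icc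
  have hg : ContinuousOn (fun x => Phi (lensPt k m x)) Sq :=
    continuousOn_Phi.comp (continuous_lensPt k m).continuousOn
      fun x hx => Q_subset k m (lensPt_mem hx)
  obtain ⟨c, c1, c2, c3⟩ := exists_chart hK continuous_lensDisc.continuousOn hg lensDisc_image (by
    intro x hx y hy
    rw [lensDisc_eq_iff hx, (Phi_injOn_Q k m).eq_iff (lensPt_mem hx) (lensPt_mem hy)]
    simp only [lensPt, Prod.mk.injEq]
    rw [(tau_injective k m).eq_iff]
    refine and_congr_right fun e => ?_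
    rw [← e, add_right_inj, mul_eq_mul_right_iff, (kap_strictMono k).injective.eq_iff]
    refine or_congr_right ⟨fun h => by rw [gap_zero hx.1 h, sub_self], fun h => ?_⟩
    by_contra h'
    linarith [gap_pos (k := k) (m := m) hx.1 h'])
  refine ⟨c, c1, ?_, ?_, ?_⟩
  · rw [c2, ← lensPt_image, image_image]
  · rw [c3 (0, 0) ⟨by simp, by simp⟩ zeroDisc (by simp [zeroDisc, lensDisc, Complex.ext_iff]),
      U_symm_odd]
    congr 1
    simp only [lensPt, Prod.mk.injEq, true_and, kap_zero]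
    have h1 : F k (tau k m 0) = 1 - ee k := by
      apply F_of_hh_zero; rw [hh_tau (by simp)]; simp
    have h2 : F (k + 1) (tau k m 0) = 2 := by
      apply F_eq_two
      unfold hh
      rw [← U_symm_odd, OrderIso.apply_symm_apply, tent_int]
      exact (ee_lt _).le
    rw [h1, h2]
    unfold lam
    have := ee_pos k
    field_simp; ring
  · rintro ⟨t, s⟩ hx h
    obtain ⟨ξ, hξ, rfl⟩ := exists_tau hx.1
    have key : ∀ y : ℝ, y ∈ Icc (-1 : ℝ) 1 → y ^ 2 = 1 → lensPt k m (ξ, y) = (tau k m ξ, s) →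
        Phi (tau k m ξ, s) ∈ c '' {z | ‖(z : ℂ)‖ = 1} := by
      intro y hy hy2 e
      have hm : (ξ, y) ∈ Sq := ⟨hξ, hy⟩
      have h1 : ‖lensDisc (ξ, y)‖ = 1 := by
        have := normSq_lensDisc hm
        simp only [hy2] at this
        nlinarith [norm_nonneg (lensDisc (ξ, y))]
      refine ⟨⟨lensDisc (ξ, y), mem_closedBall_zero_iff.2 h1.le⟩, h1, ?_⟩
      rw [c3 (ξ, y) hm _ rfl, e]
    simp only at h
    rcases h with h | h
    · exact key (-1) (by simp) (by norm_num) (by simp [lensPt, kap_neg_one, h])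
    · exact key 1 (by simp) (by norm_num) (by simp [lensPt, kap_one, h])

/-- a self map of the disc fixing the boundary and moving the centre -/
noncomputable def shift (z : Disc) : Disc :=
  ⟨z + (((1 - ‖(z : ℂ)‖) / 2 : ℝ) : ℂ), by
    rw [mem_closedBall_zero_iff]
    have h := norm_disc_le z
    refine (norm_add_le _ _).trans ?_
    rw [Complex.norm_real, Real.norm_of_nonneg (by linarith)]
    linarith⟩

lemma continuous_shift : Continuous shift := by unfold shift; fun_prop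

lemma shift_injective : Function.Injective shift := by
  intro z w h
  have h1 : (z : ℂ) + (((1 - ‖(z : ℂ)‖) / 2 : ℝ) : ℂ) = w + (((1 - ‖(w : ℂ)‖) / 2 : ℝ) : ℂ) :=
    congrArg Subtype.val h
  have h2 : (z : ℂ) - w = (((‖(z : ℂ)‖ - ‖(w : ℂ)‖) / 2 : ℝ) : ℂ) := by
    push_cast at h1 ⊢; linear_combination h1
  have h3 : ‖(z : ℂ) - w‖ = |‖(z : ℂ)‖ - ‖(w : ℂ)‖| / 2 := by
    rw [h2, Complex.norm_real, Real.norm_eq_abs, abs_div]; norm_num
  have h4 := abs_norm_sub_norm_le (z : ℂ) w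
  have h5 : ‖(z : ℂ) - w‖ = 0 := by linarith [norm_nonneg ((z : ℂ) - w)]
  exact Subtype.ext (sub_eq_zero.1 (norm_eq_zero.1 h5))

lemma shift_surjective : Function.Surjective shift := by
  intro y
  have hc : Continuous fun r : ℝ => ‖(y : ℂ) - (((1 - r) / 2 : ℝ) : ℂ)‖ - r := by fun_prop
  obtain ⟨r, hr, e⟩ := intermediate_value_Icc' zero_le_one hc.continuousOn
    (show (0 : ℝ) ∈ Icc _ _ from ⟨by simpa using norm_disc_le y, by simp⟩)
  have e' : ‖(y : ℂ) - (((1 - r) / 2 : ℝ) : ℂ)‖ = r := by simpa [sub_eq_zero] using e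
  refine ⟨⟨(y : ℂ) - (((1 - r) / 2 : ℝ) : ℂ), mem_closedBall_zero_iff.2 (by rw [e']; exact hr.2)⟩,
    Subtype.ext ?_⟩
  simp only [shift]
  rw [e']; ring

lemma exists_chart_root : ∃ c : C(Disc, ℂ), Function.Injective c ∧
    range c = Phi '' Sig 0 ∧ c zeroDisc = Phi (0, 1) ∧
    ∀ t, Phi (t, F 0 t) ∈ c '' {z | ‖(z : ℂ)‖ = 1} := by
  have hK : IsCompact (Icc (0 : ℝ) 1 ×ˢ Icc (0 : ℝ) 1) := isCompact_Icc.prod isCompact_Icc
  have hm : ∀ x : ℝ × ℝ, x.2 ∈ Icc (0 : ℝ) 1 → (x.1, x.2 * F 0 x.1) ∈ Sig 0 := fun x hx => by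
    have := F_pos 0 x.1
    exact ⟨mul_nonneg hx.1 this.le, by simp only; nlinarith [hx.2]⟩
  have hf : Continuous fun x : ℝ × ℝ => (x.2 : ℂ) * E x.1 := by
    have := continuous_E; fun_prop
  have hg : ContinuousOn (fun x : ℝ × ℝ => Phi (x.1, x.2 * F 0 x.1))
      (Icc (0 : ℝ) 1 ×ˢ Icc (0 : ℝ) 1) :=
    continuousOn_Phi.comp (f := fun x : ℝ × ℝ => (x.1, x.2 * F 0 x.1))
      (by have := continuous_F 0; fun_prop) fun x hx => Sig_subset 0 (hm x hx.2)
  have hn : ∀ x : ℝ × ℝ, 0 ≤ x.2 → ‖(x.2 : ℂ) * E x.1‖ = x.2 := fun x hx => by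
    rw [norm_mul, norm_E, Complex.norm_real, Real.norm_of_nonneg hx, mul_one]
  obtain ⟨c, c1, c2, c3⟩ := exists_chart hK hf.continuousOn hg (by
    ext z
    rw [mem_closedBall_zero_iff]
    constructor
    · rintro ⟨x, hx, rfl⟩
      rw [hn x hx.2.1]; exact hx.2.2
    · intro hz
      obtain ⟨t, ht, e⟩ := exists_E z
      exact ⟨(t, ‖z‖), ⟨ht, norm_nonneg _, hz⟩, e.symm⟩) (by
    intro x hx y hy
    rw [Phi_eq_iff (Sig_subset 0 (hm x hx.2)) (Sig_subset 0 (hm y hy.2))]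
    simp only
    constructor
    · intro h
      have h1 : x.2 = y.2 := by rw [← hn x hx.2.1, ← hn y hy.2.1, h]
      by_cases h0 : x.2 = 0
      · rw [← h1, h0]; simp
      · rw [← h1] at h
        obtain ⟨n, e⟩ := E_eq_iff.1 (mul_left_cancel₀ (by exact_mod_cast h0) h)
        exact ⟨by rw [e, F_add_int, h1], Or.inr ⟨n, e⟩⟩
    · rintro ⟨h1, h2 | ⟨n, h2⟩⟩
      · have a : x.2 = 0 := (mul_eq_zero.1 h2).resolve_right (F_pos _ _).ne'
        have b : y.2 = 0 := (mul_eq_zero.1 (h1.symm.trans h2)).resolve_right (F_pos _ _).ne'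
        rw [a, b]; simp
      · rw [h2, F_add_int] at h1
        rw [h2, E_add_int, mul_right_cancel₀ (F_pos _ _).ne' h1])
  have hfr : ∀ t : ℝ, Int.fract t ∈ Icc (0 : ℝ) 1 := fun t =>
    ⟨Int.fract_nonneg _, (Int.fract_lt_one _).le⟩
  refine ⟨c.comp ⟨shift, continuous_shift⟩, c1.comp shift_injective, ?_, ?_, ?_⟩
  · change range (c ∘ shift) = _
    rw [shift_surjective.range_comp, c2]
    ext p
    constructor
    · rintro ⟨x, hx, rfl⟩
      exact ⟨_, hm x hx.2, rfl⟩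
    · rintro ⟨⟨t, s⟩, hx, rfl⟩
      have h0 := F_pos 0 t
      have e : F 0 (Int.fract t) = F 0 t := by rw [← F_add_int 0 _ ⌊t⌋, Int.fract_add_floor]
      refine ⟨(Int.fract t, s / F 0 t), ⟨hfr t, div_nonneg hx.1 h0.le, ?_⟩, ?_⟩
      · rw [div_le_iff₀ h0, one_mul]; exact hx.2
      · simp only
        rw [e, div_mul_cancel₀ _ h0.ne', ← Phi_add_int _ _ ⌊t⌋, Int.fract_add_floor]
  · simp only [ContinuousMap.coe_comp, ContinuousMap.coe_mk, Function.comp]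
    rw [c3 (0, 1 / 2) ⟨by simp, by norm_num, by norm_num⟩ _ (by
      have := E_int 0
      simp only [Int.cast_zero] at this
      simp [shift, zeroDisc, this])]
    have : F 0 0 = 2 := by
      apply F_eq_two
      have := tent_int 0
      simp only [Int.cast_zero] at this
      unfold hh
      rw [U_zero, this]; exact (ee_lt _).le
    simp only [this]; norm_num
  · intro t
    have h1 : ‖E (Int.fract t)‖ = 1 := norm_E _
    refine ⟨⟨E (Int.fract t), mem_closedBall_zero_iff.2 h1.le⟩, h1, ?_⟩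
    simp only [ContinuousMap.coe_comp, ContinuousMap.coe_mk, Function.comp]
    rw [c3 (Int.fract t, 1) ⟨hfr t, by simp⟩ _ (by simp [shift, h1])]
    simp only [one_mul]
    rw [← Phi_add_int _ _ ⌊t⌋, ← F_add_int 0 _ ⌊t⌋, Int.fract_add_floor]

end Pool.Agent.Lib.MP_310563_al
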