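import Mathlib

/-!
Definitions for asymptotically rigid mapping class groups of planar trees.
The plane is modelled by `ℂ`, and `I` is the unit interval `[0, 1]`.
-/

set_option autoImplicit false

open Set Filter Topology unitInterval

namespace Pool.Agent.Lib.MP_310563_al

/-- The midpoint `1/2` of the unit interval. -/
noncomputable def half : I := ⟨1 / 2, by norm_num, by norm_num⟩

/-- A locally finite tree embedded in the plane with closed discrete vertex set.
The vertex `v` is drawn at `pos v`, and the edge `vw` as the injective path `edge v w`. -/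
structure PlanarTree where
  V : Type
  G : SimpleGraph V
  isTree : G.IsTree
  locallyFinite : ∀ v, (G.neighborSet v).Finite
  pos : V → ℂ
  pos_injective : Function.Injective pos
  isClosed_vertices : IsClosed (range pos)
  isDiscrete_vertices : IsDiscrete (range pos)
  edge : V → V → C(I, ℂ)
  edge_zero : ∀ v w, G.Adj v w → edge v w 0 = pos v
  edge_symm : ∀ v w, G.Adj v w → ∀ t, edge w v t = edge v w (unitInterval.symm t)
  edge_injective : ∀ v w, G.Adj v w → Function.Injective (edge v w)
  /-- no vertex lies in the interior of an edge -/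
  edge_avoids : ∀ v w, G.Adj v w → ∀ t x, edge v w t = pos x → t = 0 ∨ t = 1
  /-- different edges meet only at endpoints -/
  edge_inter : ∀ v w v' w', G.Adj v w → G.Adj v' w' → s(v, w) ≠ s(v', w') →
    ∀ t t', edge v w t = edge v' w' t' → (t = 0 ∨ t = 1) ∧ (t' = 0 ∨ t' = 1)

/-- A thickening of the planar tree `A` together with a rigid structure on it.
The polygon of `v` is the image of the closed unit disc under the embedding `chart v`, which sends
the centre to the vertex `v` and radii to the half-edges at `v`.  The thickening is the union of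
the polygons.  The arc `arc v w` is the common boundary arc of the polygons of adjacent vertices;
it has its endpoints on the boundary of the surface and is crossed by the edge `vw` once, at the
midpoint, going from one polygon into the other. -/
structure RigidSurface (A : PlanarTree) where
  chart : A.V → C(Metric.closedBall (0 : ℂ) 1, ℂ)
  chart_injective : ∀ v, Function.Injective (chart v)
  chart_centre : ∀ v (z : Metric.closedBall (0 : ℂ) 1), (z : ℂ) = 0 → chart v z = A.pos v
  polygons_locallyFinite : LocallyFinite fun v => range (chart v)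
  arc : A.V → A.V → C(I, ℂ)
  arc_injective : ∀ v w, A.G.Adj v w → Function.Injective (arc v w)
  arc_symm : ∀ v w, A.G.Adj v w → range (arc w v) = range (arc v w)
  arc_subset_boundary : ∀ v w, A.G.Adj v w → range (arc v w) ⊆ chart v '' {z | ‖(z : ℂ)‖ = 1}
  arc_ends : ∀ v w, A.G.Adj v w →
    arc v w 0 ∈ frontier (⋃ x, range (chart x)) ∧ arc v w 1 ∈ frontier (⋃ x, range (chart x))
  arc_disjoint : ∀ v w v' w', A.G.Adj v w → A.G.Adj v' w' → s(v, w) ≠ s(v', w') →
    Disjoint (range (arc v w)) (range (arc v' w'))
  inter_of_adj : ∀ v w, A.G.Adj v w → range (chart v) ∩ range (chart w) = range (arc v w)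
  disjoint_of_not_adj : ∀ v w, v ≠ w → ¬ A.G.Adj v w →
    Disjoint (range (chart v)) (range (chart w))
  /-- the first half of the edge `vw` is a radius of the polygon of `v` -/
  edge_radius : ∀ v w, A.G.Adj v w → ∃ u : ℂ, ‖u‖ = 1 ∧
    ∀ (t : I) (z : Metric.closedBall (0 : ℂ) 1), t ≤ half → (z : ℂ) = 2 * ((t : ℝ) : ℂ) * u →
      A.edge v w t = chart v z
  edge_crosses : ∀ v w, A.G.Adj v w → A.edge v w half = arc v w half

namespace RigidSurface

variable {A : PlanarTree} (R : RigidSurface A)

/-- The punctured surface: the thickening with the vertices of the tree removed. -/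
def punctured : Set ℂ := (⋃ v, range (R.chart v)) \ range A.pos

/-- The (punctured) polygon of the vertex `v`, as a subset of the punctured surface. -/
def polygon (v : A.V) : Set R.punctured := {p | (p : ℂ) ∈ range (R.chart v)}

/-- Admissible subsurfaces: nonempty, connected, finite unions of polygons. -/
def Admissible (S : Set R.punctured) : Prop :=
  S.Nonempty ∧ IsConnected S ∧ ∃ F : Finset A.V, S = ⋃ v ∈ F, R.polygon v

/-- Asymptotically rigid homeomorphisms: outside an admissible subsurface with admissible image,
polygons are carried onto polygons. -/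
def AsymptoticallyRigid (φ : R.punctured ≃ₜ R.punctured) : Prop :=
  ∃ S : Set R.punctured, R.Admissible S ∧ R.Admissible (φ '' S) ∧ φ '' Sᶜ = (φ '' S)ᶜ ∧
    ∀ v, ¬ R.polygon v ⊆ S → ∃ w, ¬ R.polygon w ⊆ φ '' S ∧ φ '' R.polygon v = R.polygon w

/-- Orientation preserving: local degree `+1` everywhere.  For every closed round disc in the
punctured surface, with centre `p` and radius `r`, the loop `s ↦ φ (p + r e^{2πis}) - φ p` is
homotopic, through loops in `ℂ \ {0}`, to the loop `s ↦ e^{2πis}`. -/
def OrientationPreserving (φ : R.punctured ≃ₜ R.punctured) : Prop :=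
  ∀ (p : R.punctured) (r : ℝ), 0 < r → Metric.closedBall (p : ℂ) r ⊆ R.punctured →
    ∃ H : C(I × I, ℂ), (∀ x, H x ≠ 0) ∧ (∀ t, H (t, 0) = H (t, 1)) ∧
      (∀ (s : I) (q : R.punctured),
        (q : ℂ) = p + r * Complex.exp (2 * Real.pi * ((s : ℝ) : ℂ) * Complex.I) →
          H (0, s) = (φ q : ℂ) - (φ p : ℂ)) ∧
      ∀ s : I, H (1, s) = Complex.exp (2 * Real.pi * ((s : ℝ) : ℂ) * Complex.I)

/-- Isotopy through homeomorphisms of the punctured surface which fixes every puncture: each
puncture `v` is sent to one and the same puncture `w` at all times. -/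
def Isotopic (φ ψ : R.punctured ≃ₜ R.punctured) : Prop :=
  ∃ H : C(I × R.punctured, R.punctured),
    (∀ t, ∃ h : R.punctured ≃ₜ R.punctured, ∀ p, H (t, p) = h p) ∧
    (∀ p, H (0, p) = φ p) ∧ (∀ p, H (1, p) = ψ p) ∧
    ∀ v, ∃ w, ∀ t, Tendsto (fun p : R.punctured => (H (t, p) : ℂ))
      (comap Subtype.val (𝓝 (A.pos v))) (𝓝 (A.pos w))

end RigidSurface

end Pool.Agent.Lib.MP_310563_al
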