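import Pool.Agent.Lib.MP_310563_al.Action

set_option autoImplicit false

open Set Filter Topology unitInterval

namespace Pool.Agent.Lib.MP_310563_al

lemma smul_mem_S {p : ℂ} (hp : p ∈ Phi '' St) {c : ℝ} (h0 : 0 ≤ c) (h1 : c ≤ 1) :
    (c : ℂ) * p ∈ Phi '' St := by
  obtain ⟨x, hx, rfl⟩ := hp
  obtain ⟨s, hs0, hs1, e⟩ := smul_mem_image hx h0 h1
  exact ⟨_, mem_St_of_le (t := x.1) (s := x.2) hx hs0 hs1, e⟩

lemma Rm_origin (j : ℤ) (k : ℕ) : Rm j k 0 = 0 := by
  have h : ((0 : ℝ), (0 : ℝ)) ∈ St := mem_St.2 ⟨le_rfl, 0, (F_pos _ _).le⟩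
  have := Rm_Phi j k h
  rwa [Phi_zero, Phi_zero] at this

lemma Rm_polar (j : ℤ) (k : ℕ) {r : ℝ} (h0 : 0 < r) (h1 : r ≤ 1) (s : ℝ) :
    ∃ c : ℝ, 0 ≤ c ∧ Rm j k (r * E s) = c * E (T j k s) := by
  have hn : ‖(r : ℂ) * E s‖ = r := by
    rw [norm_mul, norm_E, Complex.norm_real, Real.norm_of_nonneg h0.le, mul_one]
  obtain ⟨x, hx, e⟩ := exists_Phi_of_norm_le (z := r * E s) (by rw [hn]; exact h1)
  have h2 : rho x.1 x.2 = r := by rw [← norm_Phi hx, e, hn]
  have h3 : E x.1 = E s := by
    unfold Phi at e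
    rw [h2] at e
    exact mul_left_cancel₀ (by exact_mod_cast h0.ne') e
  obtain ⟨n, rfl⟩ := E_eq_iff.1 h3
  refine ⟨_, rho_nonneg (T_mem_St j k hx), ?_⟩
  rw [← e, Rm_Phi j k hx, T_add_int, E_add_int]; rfl

lemma homeo_orient (j : ℤ) (k : ℕ) : data.surface.OrientationPreserving (homeo j k) := by
  intro p r hr hball
  have hb : ∀ s : ℝ, (p : ℂ) + r * E s ∈ Phi '' St := fun s => punctured_subset (hball (by
    rw [Metric.mem_closedBall, dist_eq_norm, add_sub_cancel_left, norm_mul, norm_E,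
      Complex.norm_real, Real.norm_of_nonneg hr.le, mul_one]))
  have hp : (p : ℂ) ∈ Phi '' St := punctured_subset p.2
  set l : ℝ := 1 / (‖(p : ℂ)‖ + r + 1) with hl
  have hnp := norm_nonneg (p : ℂ)
  have l0 : 0 < l := by positivity
  have l1 : l * (‖(p : ℂ)‖ + r + 1) = 1 := by rw [hl]; field_simp
  have l2 : l ≤ 1 := by nlinarith
  let a : I → ℝ := fun t => max (1 - 2 * t) 0
  let ν : I → ℝ := fun t => max (2 * t - 1) 0
  have ha0 : ∀ t, 0 ≤ a t := fun t => le_max_right _ _
  have ha1 : ∀ t, a t ≤ 1 := fun t => max_le (by linarith [t.2.1]) zero_le_one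
  have hca : Continuous a := by fun_prop
  have hcν : Continuous ν := by fun_prop
  have m1 : ∀ (t : I), (a t : ℂ) * p ∈ Phi '' St := fun t => smul_mem_S hp (ha0 t) (ha1 t)
  have m2 : ∀ (t : I) (s : ℝ), (a t : ℂ) * p + (max (a t) l * r : ℝ) * E s ∈ Phi '' St := by
    intro t s
    rcases le_total l (a t) with h | h
    · rw [max_eq_left h]
      have := smul_mem_S (hb s) (ha0 t) (ha1 t)
      convert this using 1
      push_cast; ring
    · rw [max_eq_right h]
      apply exists_Phi_of_norm_le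
      refine (norm_add_le _ _).trans ?_
      rw [norm_mul, norm_mul, norm_E, Complex.norm_real, Complex.norm_real,
        Real.norm_of_nonneg (ha0 t), Real.norm_of_nonneg (by positivity)]
      nlinarith [mul_le_mul_of_nonneg_right h hnp]
  let W : I × I → ℂ := fun x =>
    Rm j k ((a x.1 : ℂ) * p + (max (a x.1) l * r : ℝ) * E x.2) - Rm j k ((a x.1 : ℂ) * p)
  have hE := continuous_E
  have hT := continuous_T j k
  have hW : Continuous W := by
    refine Continuous.sub ?_ ?_
    · exact (continuousOn_Rm j k).comp_continuous (by fun_prop) fun x => m2 x.1 x.2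
    · exact (continuousOn_Rm j k).comp_continuous (by fun_prop) fun x => m1 x.1
  have hW0 : ∀ x, W x ≠ 0 := by
    intro x h
    have h1 := Rm_injOn j k (m2 x.1 x.2) (m1 x.1) (sub_eq_zero.1 h)
    have h2 : ((max (a x.1) l * r : ℝ) : ℂ) * E x.2 = 0 := by linear_combination h1
    rcases mul_eq_zero.1 h2 with h3 | h3
    · have h4 : max (a x.1) l * r = 0 := by exact_mod_cast h3
      have : 0 < max (a x.1) l := lt_max_of_lt_right l0
      have : 0 < max (a x.1) l * r := by positivity
      linarith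
    · exact E_ne_zero _ h3
  let H : I × I → ℂ := fun x =>
    ((1 - ν x.1 : ℝ) : ℂ) * W x * E (ν x.1 * (x.2 - T j k x.2)) +
      (ν x.1 : ℂ) * E (T j k x.2 + ν x.1 * (x.2 - T j k x.2))
  have hH : Continuous H := by fun_prop
  refine ⟨⟨H, hH⟩, ?_, ?_, ?_, ?_⟩
  · rintro ⟨t, s⟩
    simp only [ContinuousMap.coe_mk, H]
    rcases le_or_gt (2 * (t : ℝ) - 1) 0 with h | h
    · have : ν t = 0 := max_eq_right h
      have e0 : E 0 = 1 := by simpa using E_int 0
      simp only [this]
      simpa [e0] using hW0 (t, s)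
    · have h1 : ν t = 2 * t - 1 := max_eq_left h.le
      have h2 : a t = 0 := max_eq_right (by linarith)
      obtain ⟨c, hc, e⟩ := Rm_polar j k (r := l * r) (by positivity) (by nlinarith) s
      have h3 : W (t, s) = c * E (T j k s) := by
        simp only [W, h2]
        rw [max_eq_right l0.le]
        simp only [Complex.ofReal_zero, zero_mul, zero_add, Rm_origin, sub_zero, e]
      rw [h3, E_add]
      have h4 : 0 < (1 - ν t) * c + ν t := by
        have : ν t ≤ 1 := by rw [h1]; linarith [t.2.2]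
        have : 0 ≤ (1 - ν t) * c := mul_nonneg (by linarith) hc
        linarith
      have h5 : ((((1 - ν t) * c + ν t : ℝ)) : ℂ) ≠ 0 := by exact_mod_cast h4.ne'
      have h6 := mul_ne_zero h5 (mul_ne_zero (E_ne_zero (T j k s)) (E_ne_zero (ν t * (s - T j k s))))
      convert h6 using 1
      push_cast; ring
  · intro t
    have e1 : T j k 1 = T j k 0 + 1 := by simpa using T_add_int j k 0 1
    have e2 : ∀ y, E (y + 1) = E y := fun y => by simpa using E_add_int y 1
    have e3 : E 1 = E 0 := by simpa using e2 0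
    simp only [ContinuousMap.coe_mk, H, W, Set.Icc.coe_zero, Set.Icc.coe_one, e1, e3]
    rw [show (1 : ℝ) - (T j k 0 + 1) = 0 - T j k 0 by ring,
      show T j k 0 + 1 + ν t * (0 - T j k 0) = T j k 0 + ν t * (0 - T j k 0) + 1 by ring, e2]
  · intro s q hq
    have h1 : ν 0 = 0 := by simp [ν]
    have h2 : a 0 = 1 := by simp [a]
    simp only [ContinuousMap.coe_mk, H, W, h1, h2, homeo_val, hq, max_eq_left l2]
    simp [E]
  · intro s
    have h1 : ν 1 = 1 := by simp only [ν, Set.Icc.coe_one]; norm_num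
    simp only [ContinuousMap.coe_mk, H, h1]
    simp [E]

end Pool.Agent.Lib.MP_310563_al
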