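import Pool.Agent.Lib.MP_310563_al.Charts

set_option autoImplicit false

open Set Filter Topology unitInterval

namespace Pool.Agent.Lib.MP_310563_al

/-- the binary heap tree on the natural numbers -/
def heap : SimpleGraph ℕ where
  Adj v w := v ≠ w ∧ (v / 2 = w ∨ w / 2 = v)
  symm := ⟨fun _ _ h => ⟨h.1.symm, h.2.symm⟩⟩
  loopless := ⟨fun _ h => h.1 rfl⟩

lemma heap_adj {v w : ℕ} : heap.Adj v w ↔ v ≠ w ∧ (v / 2 = w ∨ w / 2 = v) := Iff.rfl

lemma heap_adj_parent {c : ℕ} (hc : c ≠ 0) : heap.Adj c (c / 2) := ⟨by omega, Or.inl rfl⟩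

lemma heap_reach (v : ℕ) : heap.Reachable v 0 := by
  induction v using Nat.strong_induction_on with
  | _ v ih =>
    by_cases h : v = 0
    · subst h; rfl
    · exact (heap_adj_parent h).reachable.trans (ih _ (by omega))

lemma heap_bridge {c : ℕ} (hc : c ≠ 0) : heap.IsBridge s(c, c / 2) := by
  rw [SimpleGraph.isBridge_iff]
  rintro ⟨p⟩
  have key : ∀ {a b : ℕ} (_ : (heap.deleteEdges {s(c, c / 2)}).Walk a b),
      (∃ m, a / 2 ^ m = c) → ∃ m, b / 2 ^ m = c := by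
    intro a b q
    induction q with
    | nil => exact id
    | @cons a a' b h q ih =>
      rintro ⟨m, hm⟩
      apply ih
      rw [SimpleGraph.deleteEdges_adj] at h
      obtain ⟨⟨-, h1 | h1⟩, h2⟩ := h
      · cases m with
        | zero =>
          exfalso; apply h2
          simp only [pow_zero, Nat.div_one] at hm
          subst hm; subst h1; rfl
        | succ m => exact ⟨m, by rw [← h1, Nat.div_div_eq_div_mul, ← pow_succ', hm]⟩
      · exact ⟨m + 1, by rw [pow_succ', ← Nat.div_div_eq_div_mul, h1, hm]⟩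
  obtain ⟨m, hm⟩ := key p ⟨0, by simp⟩
  have : c / 2 / 2 ^ m ≤ c / 2 := Nat.div_le_self _ _
  omega

lemma heap_isTree : heap.IsTree where
  preconnected v w := (heap_reach v).trans (heap_reach w).symm
  isAcyclic := by
    rw [SimpleGraph.isAcyclic_iff_forall_adj_isBridge]
    rintro v w ⟨h, h1 | h1⟩
    · subst h1; exact heap_bridge (by omega)
    · subst h1; rw [Sym2.eq_swap]; exact heap_bridge (by omega)

lemma heap_nbr_zero : heap.neighborSet 0 = {1} := by
  ext w; simp only [SimpleGraph.mem_neighborSet, heap_adj, mem_singleton_iff]; omega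

lemma heap_nbr {v : ℕ} (h : v ≠ 0) : heap.neighborSet v = {v / 2, 2 * v, 2 * v + 1} := by
  ext w
  simp only [SimpleGraph.mem_neighborSet, heap_adj, mem_insert_iff, mem_singleton_iff]; omega

lemma heap_adj_max {v w : ℕ} (h : heap.Adj v w) :
    max v w ≠ 0 ∧ ((v = max v w ∧ w = max v w / 2) ∨ (w = max v w ∧ v = max v w / 2)) := by
  obtain ⟨h1, h2⟩ := h
  omega

def lev (v : ℕ) : ℕ := Nat.log 2 v

lemma lev_le {v : ℕ} (h : v ≠ 0) : 2 ^ lev v ≤ v := Nat.pow_log_le_self 2 h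
lemma lt_lev (v : ℕ) : v < 2 ^ (lev v + 1) := Nat.lt_pow_succ_log_self (by norm_num) v
lemma lev_eq {v k : ℕ} (h1 : 2 ^ k ≤ v) (h2 : v < 2 ^ (k + 1)) : lev v = k :=
  Nat.log_eq_of_pow_le_of_lt_pow h1 h2
lemma lev_mono {v w : ℕ} (h : v ≤ w) : lev v ≤ lev w := Nat.log_mono_right h
lemma lev_half {c : ℕ} (h : c / 2 ≠ 0) : lev c = lev (c / 2) + 1 := by
  have h1 := lev_le h
  have h2 := lt_lev (c / 2)
  apply lev_eq
  · rw [pow_succ]; omega
  · rw [pow_succ]; omega

def Pt (v : ℕ) : Set (ℝ × ℝ) := if v = 0 then Sig 0 else Q (lev v) v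

lemma Pt_zero : Pt 0 = Sig 0 := by simp [Pt]
lemma Pt_pos {v : ℕ} (h : v ≠ 0) : Pt v = Q (lev v) v := by simp [Pt, h]

lemma Pt_subset (v : ℕ) : Pt v ⊆ St := by
  unfold Pt; split_ifs
  · exact Sig_subset 0
  · exact Q_subset _ _

noncomputable def chartOf (v : ℕ) : C(Disc, ℂ) :=
  if v = 0 then exists_chart_root.choose else (exists_chart_Q (lev v) v).choose

lemma chartOf_injective (v : ℕ) : Function.Injective (chartOf v) := by
  unfold chartOf; split_ifs
  · exact exists_chart_root.choose_spec.1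
  · exact (exists_chart_Q (lev v) v).choose_spec.1

lemma range_chartOf (v : ℕ) : range (chartOf v) = Phi '' Pt v := by
  unfold chartOf Pt; split_ifs
  · exact exists_chart_root.choose_spec.2.1
  · exact (exists_chart_Q (lev v) v).choose_spec.2.1

lemma chartOf_zero_centre : chartOf 0 zeroDisc = Phi (0, 1) := by
  unfold chartOf; rw [if_pos rfl]; exact exists_chart_root.choose_spec.2.2.1

lemma chartOf_centre {v : ℕ} (h : v ≠ 0) :
    chartOf v zeroDisc = Phi ((U (lev v + 1)).symm ((2 * (v : ℤ) + 1 : ℤ) : ℝ), 1) := by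
  unfold chartOf; rw [if_neg h]; exact (exists_chart_Q (lev v) v).choose_spec.2.2.1

lemma chartOf_zero_bd (t : ℝ) : Phi (t, F 0 t) ∈ chartOf 0 '' {z | ‖(z : ℂ)‖ = 1} := by
  unfold chartOf; rw [if_pos rfl]; exact exists_chart_root.choose_spec.2.2.2 t

lemma chartOf_bd {v : ℕ} (h : v ≠ 0) {x : ℝ × ℝ} (hx : x ∈ Q (lev v) v)
    (h' : x.2 = F (lev v) x.1 ∨ x.2 = F (lev v + 1) x.1) :
    Phi x ∈ chartOf v '' {z | ‖(z : ℂ)‖ = 1} := by
  unfold chartOf; rw [if_neg h]; exact (exists_chart_Q (lev v) v).choose_spec.2.2.2 x hx h'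

lemma graph_mem_St (k : ℕ) (t : ℝ) : (t, F k t) ∈ St := mem_St.2 ⟨(F_pos k t).le, k, le_rfl⟩

noncomputable def arcOf (c : ℕ) : C(I, ℂ) :=
  ⟨fun s => Phi (tau (lev c) c (2 * s - 1), F (lev c) (tau (lev c) c (2 * s - 1))),
    continuousOn_Phi.comp_continuous
      (f := fun s : I => (tau (lev c) c (2 * s - 1), F (lev c) (tau (lev c) c (2 * s - 1))))
      (by have := continuous_tau (lev c) c; have := continuous_F (lev c); fun_prop)
      fun _ => graph_mem_St _ _⟩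

lemma arcOf_apply (c : ℕ) (s : I) : arcOf c s =
    Phi (tau (lev c) c (2 * s - 1), F (lev c) (tau (lev c) c (2 * s - 1))) := rfl

def Arc (c : ℕ) : Set (ℝ × ℝ) := {x | x ∈ Q (lev c) c ∧ x.2 = F (lev c) x.1}

lemma arc_param_mem (s : I) : (2 * s - 1 : ℝ) ∈ Icc (-1 : ℝ) 1 :=
  ⟨by linarith [s.2.1], by linarith [s.2.2]⟩

lemma arcPt_mem (c : ℕ) (s : I) :
    (tau (lev c) c (2 * s - 1), F (lev c) (tau (lev c) c (2 * s - 1))) ∈ Arc c :=
  ⟨⟨tau_mem (arc_param_mem s), le_rfl, F_le_succ _ _⟩, rfl⟩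

lemma range_arcOf (c : ℕ) : range (arcOf c) = Phi '' Arc c := by
  ext p
  constructor
  · rintro ⟨s, rfl⟩
    exact ⟨_, arcPt_mem c s, rfl⟩
  · rintro ⟨⟨t, r⟩, ⟨hx, e⟩, rfl⟩
    obtain ⟨ξ, hξ, rfl⟩ := exists_tau hx.1
    simp only at e
    refine ⟨⟨(ξ + 1) / 2, by linarith [hξ.1], by linarith [hξ.2]⟩, ?_⟩
    rw [arcOf_apply, e]
    simp only [show 2 * ((ξ + 1) / 2) - 1 = ξ by ring]

lemma arcOf_injective (c : ℕ) : Function.Injective (arcOf c) := by
  intro s s' h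
  have h1 := Phi_injOn_Q _ _ (arcPt_mem c s).1 (arcPt_mem c s').1 h
  have h2 := tau_injective _ _ (congrArg Prod.fst h1)
  exact Subtype.ext (by linarith)

lemma pi1_int (n : ℤ) : pi1 n = 2 * n := by
  have := pi1_add_int 0 n
  rwa [zero_add, pi1_of_abs_le (t := 0) (by simp), zero_add] at this

lemma window_half {k : ℕ} {t : ℝ} {c : ℕ} (h : U (k + 1) t ∈ Icc (((c : ℤ) : ℝ)) ((c : ℤ) + 1)) :
    U k t ∈ Icc ((((c / 2 : ℕ) : ℤ) : ℝ)) (((c / 2 : ℕ) : ℤ) + 1) := by
  rw [U_succ] at h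
  have a : ((2 * (c / 2) : ℕ) : ℝ) ≤ c := by exact_mod_cast (by omega : 2 * (c / 2) ≤ c)
  have b : ((c + 1 : ℕ) : ℝ) ≤ ((2 * (c / 2) + 2 : ℕ) : ℝ) := by
    exact_mod_cast (by omega : c + 1 ≤ 2 * (c / 2) + 2)
  push_cast at a b h
  constructor
  · rw [← pi1_strictMono.le_iff_le]
    have := pi1_int ((c / 2 : ℕ) : ℤ)
    rw [Int.cast_natCast] at this
    rw [Int.cast_natCast, this]; linarith [h.1]
  · rw [← pi1_strictMono.le_iff_le]
    have := pi1_int (((c / 2 : ℕ) : ℤ) + 1)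
    rw [Int.cast_add, Int.cast_natCast, Int.cast_one] at this
    rw [Int.cast_natCast, this]; linarith [h.2]

lemma Arc_subset_parent {c : ℕ} (h : c / 2 ≠ 0) {x : ℝ × ℝ} (hx : x ∈ Arc c) :
    x ∈ Q (lev (c / 2)) ((c / 2 : ℕ) : ℤ) ∧ x.2 = F (lev (c / 2) + 1) x.1 := by
  obtain ⟨h1, h2⟩ := hx
  rw [lev_half h] at h1 h2
  obtain ⟨a, b, -, -⟩ := mem_Q.1 h1
  refine ⟨mem_Q.2 ⟨window_half a, ?_, ?_, h2.le⟩, h2⟩
  · exact ((hh_mono x.1 (Nat.le_succ _)).trans b).trans (ee_strictAnti (Nat.lt_succ_self _)).le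
  · rw [h2]; exact F_le_succ _ _

lemma Arc_subset_Pt_parent {c : ℕ} (hc : c ≠ 0) : Arc c ⊆ Pt (c / 2) := by
  intro x hx
  by_cases h : c / 2 = 0
  · have : c = 1 := by omega
    subst this
    rw [h, Pt_zero]
    have e : x.2 = F 0 x.1 := hx.2
    exact ⟨by rw [e]; exact (F_pos _ _).le, e.le⟩
  · rw [Pt_pos h]; exact (Arc_subset_parent h hx).1

lemma Q_add_int {k : ℕ} {m : ℤ} {t s : ℝ} (n : ℤ) (h : (t, s) ∈ Q k m) :
    (t + n, s) ∈ Q k (m + 2 ^ k * n) := by
  obtain ⟨a, b, c⟩ := h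
  refine ⟨?_, ?_, ?_⟩
  · simp only [U_add_int] at a ⊢
    push_cast at a ⊢
    exact ⟨by linarith [a.1], by linarith [a.2]⟩
  · simpa only [F_add_int] using b
  · simpa only [F_add_int] using c

lemma window_unique {y : ℝ} {a b : ℤ} (h1 : (a : ℝ) < y ∧ y < a + 1) (h2 : y ∈ Icc (b : ℝ) (b + 1)) :
    a = b := by
  have h3 : (a : ℝ) < b + 1 := by linarith [h1.1, h2.2]
  have h4 : (b : ℝ) < a + 1 := by linarith [h1.2, h2.1]
  have h5 : a < b + 1 := by exact_mod_cast h3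
  have h6 : b < a + 1 := by exact_mod_cast h4
  omega

lemma eq_of_same_level {v w : ℕ} (hv : v ≠ 0) (hw : w ≠ 0) (hl : lev v = lev w) {n : ℤ}
    (h : (v : ℤ) + 2 ^ lev v * n = w) : v = w := by
  have a1 : ((2 ^ lev v : ℕ) : ℤ) ≤ v := by exact_mod_cast lev_le hv
  have a2 : (v : ℤ) < ((2 ^ (lev v + 1) : ℕ) : ℤ) := by exact_mod_cast lt_lev v
  have a3 : ((2 ^ lev v : ℕ) : ℤ) ≤ w := by rw [hl]; exact_mod_cast lev_le hw
  have a4 : (w : ℤ) < ((2 ^ (lev v + 1) : ℕ) : ℤ) := by rw [hl]; exact_mod_cast lt_lev w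
  push_cast at a1 a2 a3 a4
  rw [pow_succ] at a2 a4
  have hp : (0 : ℤ) < 2 ^ lev v := by positivity
  have : n = 0 := by
    rcases lt_trichotomy n 0 with h0 | h0 | h0
    · nlinarith
    · exact h0
    · nlinarith
  subst this
  omega

lemma inter_lemma {v w : ℕ} (hvw : v < w) {x y : ℝ × ℝ} (hx : x ∈ Pt v) (hy : y ∈ Pt w)
    (h : Phi x = Phi y) : w / 2 = v ∧ y ∈ Arc w := by
  have hw : w ≠ 0 := by omega
  obtain ⟨t, s⟩ := x
  obtain ⟨u, r⟩ := y
  obtain ⟨h1, h2⟩ := (Phi_eq_iff (Pt_subset v hx) (Pt_subset w hy)).1 h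
  rw [Pt_pos hw] at hy
  simp only at h1 h2
  subst h1
  obtain ⟨b1, b2, b3, b4⟩ := mem_Q.1 hy
  simp only at b1 b2 b3 b4
  rcases h2 with h2 | ⟨n, rfl⟩
  · linarith [F_pos (lev w) u]
  by_cases hv : v = 0
  · subst hv
    rw [Pt_zero] at hx
    have a : s ≤ F 0 (t + n) := by rw [F_add_int]; exact hx.2
    have hl : lev w = 0 := by
      by_contra hl
      linarith [F_lt_of_lt (Nat.pos_of_ne_zero hl) b2]
    have := lt_lev w
    rw [hl] at this
    exact ⟨by omega, hy, by simp only; rw [hl] at b3 ⊢; linarith⟩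
  · rw [Pt_pos hv] at hx
    have hx' := Q_add_int n hx
    obtain ⟨a1, a2, a3, a4⟩ := mem_Q.1 hx'
    simp only at a1 a2 a3 a4
    rcases (lev_mono hvw.le).lt_or_eq with hl | hl
    · have hl' : lev w = lev v + 1 := by
        by_contra hne
        linarith [F_lt_of_lt (show lev v + 1 < lev w by omega) b2]
      have hw2 : w / 2 ≠ 0 := by
        have := lev_le hw
        rw [hl', pow_succ] at this
        have : 0 < 2 ^ lev v := by positivity
        omega
      have hl2 : lev v = lev (w / 2) := by have := lev_half hw2; omega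
      rw [hl'] at b1
      have := window_unique (Q_window hx') (window_half b1)
      refine ⟨(eq_of_same_level hv hw2 hl2 this).symm, hy, ?_⟩
      simp only; rw [hl'] at b3 ⊢; linarith
    · rw [← hl] at b1
      have := window_unique (Q_window hx') b1
      exact absurd (eq_of_same_level hv hw hl this) hvw.ne

lemma Arc_subset_Pt {c : ℕ} (hc : c ≠ 0) : Arc c ⊆ Pt c := fun x hx => by
  rw [Pt_pos hc]; exact hx.1

lemma norm_ge_of_mem {v : ℕ} {p : ℂ} (hp : p ∈ Phi '' Pt v) : (v : ℝ) ≤ ‖p‖ := by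
  obtain ⟨x, hx, rfl⟩ := hp
  by_cases hv : v = 0
  · subst hv; simp
  · rw [norm_Phi (Pt_subset v hx)]
    have h0 := Pt_subset v hx
    rw [Pt_pos hv] at hx
    obtain ⟨-, b2, b3, -⟩ := mem_Q.1 hx
    refine le_trans ?_ (rho_ge h0 b2 b3)
    exact_mod_cast (lt_lev v).le

lemma locallyFinite_poly : LocallyFinite fun v => Phi '' Pt v := by
  intro p
  refine ⟨Metric.ball p 1, Metric.ball_mem_nhds p one_pos, ?_⟩
  obtain ⟨N, hN⟩ := exists_nat_gt (‖p‖ + 1)
  refine (finite_lt_nat N).subset ?_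
  rintro v ⟨q, hq, hq'⟩
  have h1 := norm_ge_of_mem hq
  have h2 : ‖q‖ < ‖p‖ + 1 := by
    have := mem_ball_iff_norm.1 hq'
    linarith [norm_sub_norm_le q p]
  exact_mod_cast (by linarith : (v : ℝ) < N)

/-- reduction of a virtual polygon to an actual one -/
lemma exists_reduce (k : ℕ) (m : ℤ) :
    ∃ (v : ℕ) (n : ℤ), 2 ^ k ≤ v ∧ v < 2 ^ (k + 1) ∧ m + 2 ^ k * n = v := by
  have hp : (0 : ℤ) < 2 ^ k := by positivity
  have h1 := Int.emod_nonneg m hp.ne'
  have h2 := Int.emod_lt_of_pos m hp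
  have h3 := Int.emod_add_mul_ediv m (2 ^ k)
  refine ⟨(m % 2 ^ k + 2 ^ k).toNat, 1 - m / 2 ^ k, ?_, ?_, ?_⟩
  · zify; rw [Int.toNat_of_nonneg (by omega)]; omega
  · zify; rw [Int.toNat_of_nonneg (by omega), pow_succ]; omega
  · rw [Int.toNat_of_nonneg (by omega)]; linear_combination -h3

lemma image_Q_add (k : ℕ) (m n : ℤ) : Phi '' Q k (m + 2 ^ k * n) = Phi '' Q k m := by
  have key : ∀ m n : ℤ, Phi '' Q k m ⊆ Phi '' Q k (m + 2 ^ k * n) := by
    rintro m n _ ⟨⟨t, s⟩, hx, rfl⟩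
    exact ⟨_, Q_add_int n hx, Phi_add_int t s n⟩
  refine Subset.antisymm ?_ (key m n)
  have := key (m + 2 ^ k * n) (-n)
  rwa [show m + 2 ^ k * n + 2 ^ k * -n = m by ring] at this

lemma exists_poly_eq (k : ℕ) (m : ℤ) :
    ∃ v : ℕ, 2 ^ k ≤ v ∧ v < 2 ^ (k + 1) ∧ Phi '' Pt v = Phi '' Q k m := by
  obtain ⟨v, n, h1, h2, h3⟩ := exists_reduce k m
  have : 0 < 2 ^ k := by positivity
  refine ⟨v, h1, h2, ?_⟩
  rw [Pt_pos (by omega), lev_eq h1 h2, ← h3, image_Q_add]

lemma image_Sig (k : ℕ) : Phi '' Sig k = ⋃ v ∈ Finset.range (2 ^ k), Phi '' Pt v := by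
  apply Subset.antisymm
  · induction k with
    | zero => simp [Pt_zero]
    | succ k ih =>
      rintro _ ⟨x, hx, rfl⟩
      rcases le_or_gt x.2 (F k x.1) with h | h
      · have := ih ⟨x, ⟨hx.1, h⟩, rfl⟩
        simp only [mem_iUnion, Finset.mem_range] at this ⊢
        obtain ⟨v, hv, hv'⟩ := this
        exact ⟨v, by rw [pow_succ]; omega, hv'⟩
      · have h1 : hh k x.1 < ee k := hh_lt_of_F_lt (lt_of_lt_of_le h (hx.2.trans (F_le_two _ _)))
        obtain ⟨v, -, hv, e⟩ := exists_poly_eq k ⌊U k x.1⌋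
        simp only [mem_iUnion, Finset.mem_range]
        refine ⟨v, hv, ?_⟩
        rw [e]
        exact ⟨x, mem_Q.2 ⟨⟨Int.floor_le _, (Int.lt_floor_add_one _).le⟩, h1.le, h.le, hx.2⟩, rfl⟩
  · refine iUnion₂_subset fun v hv => image_mono ?_
    rw [Finset.mem_range] at hv
    by_cases h0 : v = 0
    · subst h0; rw [Pt_zero]
      exact fun x hx => ⟨hx.1, hx.2.trans (F_mono x.1 (Nat.zero_le k))⟩
    · rw [Pt_pos h0]
      have : lev v < k := by
        have := lt_of_le_of_lt (lev_le h0) hv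
        exact (Nat.pow_lt_pow_iff_right (by norm_num)).1 this
      exact fun x hx => ⟨(F_pos _ _).le.trans hx.2.1, hx.2.2.trans (F_mono x.1 this)⟩

lemma iUnion_poly : (⋃ v, Phi '' Pt v) = Phi '' St := by
  apply Subset.antisymm
  · exact iUnion_subset fun v => image_mono (Pt_subset v)
  · unfold St
    rw [image_iUnion]
    refine iUnion_subset fun k => ?_
    rw [image_Sig]
    exact iUnion₂_subset fun v _ => subset_iUnion (fun v => Phi '' Pt v) v

lemma top_mem_frontier {t : ℝ} (h : (t, (2 : ℝ)) ∈ St) : Phi (t, 2) ∈ frontier (Phi '' St) := by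
  refine ⟨subset_closure ⟨_, h, rfl⟩, fun hi => ?_⟩
  have h1 : Phi '' St ∈ 𝓝 (Phi (t, 2)) := mem_interior_iff_mem_nhds.1 hi
  have hc : Continuous fun c : ℝ => (c : ℂ) * Phi (t, 2) := by fun_prop
  have h2 : (fun c : ℝ => (c : ℂ) * Phi (t, 2)) ⁻¹' (Phi '' St) ∈ 𝓝 (1 : ℝ) :=
    hc.continuousAt.preimage_mem_nhds (by simpa using h1)
  obtain ⟨c, hc1, hc2⟩ := (nhdsWithin_le_nhds h2 : _ ∈ 𝓝[>] (1 : ℝ)) |> fun h3 =>
    (Filter.inter_mem self_mem_nhdsWithin h3) |> Filter.nonempty_of_mem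
  obtain ⟨y, hy, e⟩ := hc2
  have hc1' : 1 < c := hc1
  obtain ⟨s, hs0, hs1, e'⟩ := smul_mem_image hy (c := 1 / c) (by positivity)
    (by rw [div_le_iff₀ (by linarith)]; linarith)
  have hc0 : (c : ℂ) ≠ 0 := by exact_mod_cast (by linarith : c ≠ 0)
  have e2 : Phi (y.1, s) = Phi (t, 2) := by rw [e', e]; push_cast; field_simp
  have hs : s = 2 := ((Phi_eq_iff (mem_St_of_le hy hs0 hs1) h).1 e2).1
  obtain ⟨-, k, hk⟩ := mem_St.1 hy
  have hy2 : y.2 = 2 := le_antisymm (hk.trans (F_le_two _ _)) (hs ▸ hs1)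
  have e3 : Phi y = Phi (t, 2) := by rw [← e2, hs, ← hy2]
  have hn : ‖Phi (t, 2)‖ ≠ 0 := by
    rw [norm_Phi h]; exact (rho_pos h (by norm_num)).ne'
  rw [e3] at e
  have e4 : (c : ℂ) = 1 := by
    have : Phi (t, 2) ≠ 0 := fun h0 => hn (by rw [h0, norm_zero])
    exact mul_right_cancel₀ this (by rw [one_mul]; exact e.symm)
  have : c = 1 := by exact_mod_cast e4
  linarith

/-- the tree `A_{2,1}` with its rigid surface -/
noncomputable def data : Data where
  V := ℕ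
  G := heap
  isTree := heap_isTree
  locallyFinite v := by
    by_cases h : v = 0
    · subst h; rw [heap_nbr_zero]; simp
    · rw [heap_nbr h]; simp
  chart := chartOf
  chart_injective := chartOf_injective
  polygons_locallyFinite := by simp only [range_chartOf]; exact locallyFinite_poly
  arc v w := arcOf (max v w)
  arc_injective v w _ := arcOf_injective _
  arc_symm v w := by rw [max_comm]
  arc_subset_boundary v w h := by
    rw [range_arcOf]
    obtain ⟨h0, ⟨h1, -⟩ | ⟨-, h1⟩⟩ := heap_adj_max h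
    · rw [← h1] at h0 ⊢
      rintro _ ⟨x, hx, rfl⟩
      exact chartOf_bd h0 hx.1 (Or.inl hx.2)
    · generalize max v w = c at h0 h1
      subst h1
      rintro _ ⟨x, hx, rfl⟩
      by_cases h2 : c / 2 = 0
      · have : c = 1 := by omega
        subst this
        have e : x = (x.1, F 0 x.1) := Prod.ext rfl hx.2
        rw [e]; exact chartOf_zero_bd _
      · exact chartOf_bd h2 (Arc_subset_parent h2 hx).1 (Or.inr (Arc_subset_parent h2 hx).2)
  arc_ends v w h := by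
    simp only [range_chartOf, iUnion_poly]
    have key : ∀ s : I, (2 * s - 1 : ℝ) ^ 2 = 1 → arcOf (max v w) s ∈ frontier (Phi '' St) := by
      intro s hs
      have := graph_mem_St (lev (max v w)) (tau (lev (max v w)) (max v w : ℕ) (2 * s - 1))
      rw [arcOf_apply]
      rw [F_end (arc_param_mem s) hs] at this ⊢
      exact top_mem_frontier this
    exact ⟨key 0 (by simp), key 1 (by norm_num)⟩
  arc_disjoint v w v' w' h h' hne := by
    have key : ∀ c c' : ℕ, c ≠ 0 → c < c' → Disjoint (range (arcOf c)) (range (arcOf c')) := by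
      intro c c' hc hcc
      rw [range_arcOf, range_arcOf, disjoint_left]
      rintro _ ⟨x, hx, rfl⟩ ⟨y, hy, e⟩
      have h1 := (inter_lemma hcc (Arc_subset_Pt hc hx) (Arc_subset_Pt (by omega) hy) e.symm).1
      have h2 := (inter_lemma (show c / 2 < c' by omega) (Arc_subset_Pt_parent hc hx)
        (Arc_subset_Pt (by omega) hy) e.symm).1
      omega
    obtain ⟨a0, a⟩ := heap_adj_max h
    obtain ⟨b0, b⟩ := heap_adj_max h'
    rcases lt_trichotomy (max v w) (max v' w') with hl | hl | hl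
    · exact key _ _ a0 hl
    · exfalso; apply hne
      rw [Sym2.eq_iff]; omega
    · exact (key _ _ b0 hl).symm
  inter_of_adj v w h := by
    have key : ∀ c : ℕ, c ≠ 0 → Phi '' Pt (c / 2) ∩ Phi '' Pt c = Phi '' Arc c := by
      intro c hc
      apply Subset.antisymm
      · rintro _ ⟨⟨x, hx, rfl⟩, y, hy, e⟩
        exact ⟨y, (inter_lemma (by omega) hx hy e.symm).2, e⟩
      · exact subset_inter (image_mono (Arc_subset_Pt_parent hc)) (image_mono (Arc_subset_Pt hc))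
    rw [range_arcOf, range_chartOf, range_chartOf]
    obtain ⟨h0, ⟨h1, h2⟩ | ⟨h1, h2⟩⟩ := heap_adj_max h
    · rw [← key _ h0, ← h2, ← h1, inter_comm]
    · rw [← key _ h0, ← h2, ← h1]
  disjoint_of_not_adj v w hne h := by
    rw [range_chartOf, range_chartOf, disjoint_left]
    rintro _ ⟨x, hx, rfl⟩ ⟨y, hy, e⟩
    apply h
    rcases lt_or_gt_of_ne hne with hl | hl
    · exact ⟨hne, Or.inr (inter_lemma hl hx hy e.symm).1⟩
    · exact ⟨hne, Or.inl (inter_lemma hl hy hx e).1⟩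

end Pool.Agent.Lib.MP_310563_al
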